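import Pool.Agent.D0H93.MT.Main

/-!
# Variations of Hodge structures with algebraic classes: definitions
-/

set_option autoImplicit false
set_option linter.unusedSectionVars false

open Matrix

namespace Pool.Agent.D0H93.VH

open Pool.Agent.D0H93.MT

variable {ι : Type} [Fintype ι] [DecidableEq ι] {w : ℤ} {B Γ : Type} [Group Γ]

/-- A polarized variation of Hodge structures of weight `w`, trivialised on the universal covering `B` of
the base, with the monodromy representation `ρ`. -/
structure Variation (ι : Type) [Fintype ι] [DecidableEq ι] (w : ℤ) (B Γ : Type) [Group Γ] where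
  /-- the Hodge structures -/
  S : B → HodgeStructure ι w
  /-- the flat polarization -/
  Q : Matrix ι ι ℚ
  pol : ∀ b, (S b).IsPolarization Q
  /-- the monodromy -/
  ρ : Γ →* (Matrix ι ι ℚ)ˣ
  flat : ∀ g, (ρ g : Matrix ι ι ℚ)ᵀ * Q * (ρ g : Matrix ι ι ℚ) = Q
  /-- the theorem of the fixed part: a flat class which is a Hodge class on one member is a Hodge class
  on all members -/
  fixedPart : ∀ n c, IsTate ρ n c → ∀ b b', (S b).IsHodge n c → (S b').IsHodge n c

/-- The algebraic classes on the members of the variation: endomorphisms of the tensor powers which are
endomorphisms of Hodge structures; the class of the polarization is one of them. -/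
structure CycleClasses (V : Variation ι w B Γ) where
  /-- `alg b n c`: the endomorphism `c` of the `n`-th tensor power of the member at `b` is algebraic -/
  alg : B → Family ι ℚ
  isHodge : ∀ b n c, alg b n c → (V.S b).IsHodge n c
  form : ∀ b, alg b 2 (formClass V.Q)

variable {V : Variation ι w B Γ}

/-- The class `c` is weakly algebraic at `b`: it is fixed by the identity component of the group which
fixes all algebraic classes on the member at `b`. -/
def CycleClasses.WeaklyAlgebraic (C : CycleClasses V) (b : B) : Family ι ℚ :=
  fun _ c => ∀ x ∈ ann (C.alg b), Kills x c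

/-- The class `c` is flat (on a finite covering of the base) and weakly algebraic at `b`. -/
def CycleClasses.FlatAlgebraic (C : CycleClasses V) (b : B) : Family ι ℚ :=
  fun n c => IsTate V.ρ n c ∧ C.WeaklyAlgebraic b n c

/-- The number of linearly independent flat weakly algebraic classes at `b`, among the endomorphisms
of the `n`-th tensor power. -/
noncomputable def CycleClasses.dim (C : CycleClasses V) (b : B) (n : ℕ) : ℕ :=
  Module.finrank ℚ (Submodule.span ℚ {c | C.FlatAlgebraic b n c})

/-- The variational Hodge conjecture from the member at `b` to the member at `b'`, for the `n`-th tensor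
power: the flat classes which are weakly algebraic at `b` are weakly algebraic at `b'`. -/
def CycleClasses.VHC (C : CycleClasses V) (b b' : B) (n : ℕ) : Prop :=
  ∀ c, C.FlatAlgebraic b n c → C.WeaklyAlgebraic b' n c

/-- `z` is in the centre of the algebra `E` of the flat weakly algebraic endomorphisms of the member at
`b` (these are the matrices which commute with `ann (C.FlatAlgebraic b)`), and it is skew for the
involution of the polarization. -/
def CycleClasses.SkewCentral (C : CycleClasses V) (b : B) (z : Matrix ι ι ℚ) : Prop :=
  (∀ x ∈ ann (C.FlatAlgebraic b), x * z = z * x) ∧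
    (∀ y, (∀ x ∈ ann (C.FlatAlgebraic b), x * y = y * x) → y * z = z * y) ∧
    zᵀ * V.Q = - (V.Q * z)

/-- The class `c` commutes with the operators `∑ 1 ⊗ ⋯ ⊗ z ⊗ ⋯ ⊗ 1`, `z` skew and in the centre of
the algebra of the flat weakly algebraic endomorphisms. -/
def CycleClasses.CentreInvariant (C : CycleClasses V) (b : B) : Family ι ℚ :=
  fun _ c => ∀ z, C.SkewCentral b z → Kills z c

/-- The variational Hodge conjecture from `b` to `b'` for the classes which are invariant under the
skew part of the centre of the endomorphism algebra. -/
def CycleClasses.CentralVHC (C : CycleClasses V) (b b' : B) (n : ℕ) : Prop :=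
  ∀ c, C.FlatAlgebraic b n c → C.CentreInvariant b n c → C.WeaklyAlgebraic b' n c

end Pool.Agent.D0H93.VH
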