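import Mathlib

/-!
# A finiteness theorem for Lie algebras of matrices
-/

set_option autoImplicit false
set_option linter.unusedSectionVars false
set_option linter.unusedVariables false

open Matrix Filter Topology

namespace Pool.Agent.D0H93.VH

variable {ι : Type} [Fintype ι] [DecidableEq ι]

/-- The commutator. -/
def br (x y : Matrix ι ι ℝ) : Matrix ι ι ℝ := x * y - y * x

/-- The matrix units. -/
abbrev un (a b : ι) : Matrix ι ι ℝ := Matrix.single a b 1

lemma br_add_left (x y z : Matrix ι ι ℝ) : br (x + y) z = br x z + br y z := by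
  unfold br; noncomm_ring

lemma br_add_right (x y z : Matrix ι ι ℝ) : br x (y + z) = br x y + br x z := by
  unfold br; noncomm_ring

lemma br_smul_left (a : ℝ) (x y : Matrix ι ι ℝ) : br (a • x) y = a • br x y := by
  unfold br; rw [smul_mul_assoc, mul_smul_comm, smul_sub]

lemma br_smul_right (a : ℝ) (x y : Matrix ι ι ℝ) : br x (a • y) = a • br x y := by
  unfold br; rw [smul_mul_assoc, mul_smul_comm, smul_sub]

lemma br_zero_right (x : Matrix ι ι ℝ) : br x 0 = 0 := by unfold br; simp

lemma br_sum_right {κ : Type} (s : Finset κ) (x : Matrix ι ι ℝ) (f : κ → Matrix ι ι ℝ) :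
    br x (∑ a ∈ s, f a) = ∑ a ∈ s, br x (f a) := by
  unfold br
  rw [Finset.mul_sum, Finset.sum_mul, Finset.sum_sub_distrib]

lemma br_eq_zero {x y : Matrix ι ι ℝ} : br x y = 0 ↔ x * y = y * x := sub_eq_zero

lemma jacobi (x y z : Matrix ι ι ℝ) : br x (br y z) = br (br x y) z + br y (br x z) := by
  unfold br; noncomm_ring

lemma sum_un (x : Matrix ι ι ℝ) : x = ∑ a, ∑ b, x a b • un a b := by
  conv_lhs => rw [Matrix.matrix_eq_sum_single x]
  refine Finset.sum_congr rfl fun a _ => Finset.sum_congr rfl fun b _ => ?_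
  rw [Matrix.smul_single, smul_eq_mul, mul_one]

lemma map_sum_un (f : Matrix ι ι ℝ →ₗ[ℝ] Matrix ι ι ℝ) (x : Matrix ι ι ℝ) :
    f x = ∑ a, ∑ b, x a b • f (un a b) := by
  conv_lhs => rw [sum_un x]
  simp only [map_sum, map_smul]

section lim

variable (U : Ultrafilter ℕ)

lemma exists_lim {f : ℕ → ℝ} {M : ℝ} (h : ∀ᶠ i in (U : Filter ℕ), |f i| ≤ M) :
    ∃ l, Tendsto f U (𝓝 l) := by
  obtain ⟨l, -, hl⟩ := (isCompact_Icc (a := -M) (b := M)).ultrafilter_le_nhds (U.map f) (by
    rw [Ultrafilter.coe_map, le_principal_iff, mem_map]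
    filter_upwards [h] with i hi
    exact abs_le.1 hi)
  exact ⟨l, hl⟩

lemma tendsto_matrix {f : ℕ → Matrix ι ι ℝ} {m : Matrix ι ι ℝ} {F : Filter ℕ} :
    Tendsto f F (𝓝 m) ↔ ∀ c d, Tendsto (fun i => f i c d) F (𝓝 (m c d)) := by
  constructor
  · intro h c d
    exact ((continuous_apply d).tendsto _).comp (((continuous_apply c).tendsto m).comp h)
  · intro h
    exact tendsto_pi_nhds.2 fun c => tendsto_pi_nhds.2 fun d => h c d

/-- Bounded sequences of linear maps have limits. -/
lemma exists_lim_linear {f : ℕ → (Matrix ι ι ℝ →ₗ[ℝ] Matrix ι ι ℝ)} {M : ℝ}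
    (h : ∀ a b c d, ∀ᶠ i in (U : Filter ℕ), |f i (un a b) c d| ≤ M) :
    ∃ g : Matrix ι ι ℝ →ₗ[ℝ] Matrix ι ι ℝ, ∀ x, Tendsto (fun i => f i x) U (𝓝 (g x)) := by
  choose l hl using fun a b c d => exists_lim U (h a b c d)
  refine ⟨{ toFun := fun x => ∑ a, ∑ b, x a b • Matrix.of fun c d => l a b c d
            map_add' := fun x y => by
              simp only [Matrix.add_apply, add_smul, Finset.sum_add_distrib]
            map_smul' := fun r x => by
              simp only [Matrix.smul_apply, smul_eq_mul, mul_smul, RingHom.id_apply,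
                Finset.smul_sum] }, fun x => ?_⟩
  have h1 : ∀ a b, Tendsto (fun i => f i (un a b)) U (𝓝 (Matrix.of fun c d => l a b c d)) :=
    fun a b => tendsto_matrix.2 fun c d => hl a b c d
  have h2 : (fun i => f i x) = fun i => ∑ a, ∑ b, x a b • f i (un a b) := by
    funext i
    exact map_sum_un (f i) x
  rw [h2]
  exact tendsto_finsetSum _ fun a _ => tendsto_finsetSum _ fun b _ => (h1 a b).const_smul _

lemma tendsto_apply {f : ℕ → (Matrix ι ι ℝ →ₗ[ℝ] Matrix ι ι ℝ)}
    {g : Matrix ι ι ℝ →ₗ[ℝ] Matrix ι ι ℝ} {F : Filter ℕ} (h : ∀ x, Tendsto (fun i => f i x) F (𝓝 (g x)))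
    {y : ℕ → Matrix ι ι ℝ} {y₀ : Matrix ι ι ℝ} (hy : Tendsto y F (𝓝 y₀)) :
    Tendsto (fun i => f i (y i)) F (𝓝 (g y₀)) := by
  have h2 : (fun i => f i (y i)) = fun i => ∑ a, ∑ b, y i a b • f i (un a b) := by
    funext i
    exact map_sum_un (f i) (y i)
  rw [h2, map_sum_un g y₀]
  exact tendsto_finsetSum _ fun a _ => tendsto_finsetSum _ fun b _ =>
    ((tendsto_matrix.1 hy) a b).smul (h _)

lemma tendsto_br {x y : ℕ → Matrix ι ι ℝ} {x₀ y₀ : Matrix ι ι ℝ} {F : Filter ℕ}
    (hx : Tendsto x F (𝓝 x₀)) (hy : Tendsto y F (𝓝 y₀)) :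
    Tendsto (fun i => br (x i) (y i)) F (𝓝 (br x₀ y₀)) :=
  (hx.mul hy).sub (hy.mul hx)

end lim

/-- The orthogonal projectors onto the Lie algebras considered. -/
structure Good (H N : Submodule ℝ (Matrix ι ι ℝ)) (P : Matrix ι ι ℝ →ₗ[ℝ] Matrix ι ι ℝ) : Prop where
  idem : ∀ x, P (P x) = P x
  symm : ∀ x y, ((P x)ᵀ * y).trace = (xᵀ * P y).trace
  tr : ∀ x, P xᵀ = (P x)ᵀ
  lie : ∀ x y, P (br (P x) (P y)) = br (P x) (P y)
  onH : ∀ h ∈ H, P h = h
  memN : ∀ x, P x ∈ N
  onZ : ∀ z ∈ N, (∀ h ∈ H, h * z = z * h) → P z = z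

lemma eq_zero_of_trace {x : Matrix ι ι ℝ} (h : (xᵀ * x).trace = 0) : x = 0 := by
  have := Matrix.trace_conjTranspose_mul_self_eq_zero_iff (A := x)
  rw [Matrix.conjTranspose_eq_transpose_of_trivial] at this
  exact this.1 h

lemma trace_nonneg (x : Matrix ι ι ℝ) : 0 ≤ (xᵀ * x).trace := by
  simp only [Matrix.trace, Matrix.diag, Matrix.mul_apply, Matrix.transpose_apply]
  exact Finset.sum_nonneg fun a _ => Finset.sum_nonneg fun b _ => mul_self_nonneg _

lemma entry_sq_le (x : Matrix ι ι ℝ) (c d : ι) : x c d * x c d ≤ (xᵀ * x).trace := by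
  simp only [Matrix.trace, Matrix.diag, Matrix.mul_apply, Matrix.transpose_apply]
  have h1 : x c d * x c d ≤ ∑ j, x j d * x j d :=
    Finset.single_le_sum (f := fun j => x j d * x j d) (fun j _ => mul_self_nonneg _)
      (Finset.mem_univ c)
  exact h1.trans (Finset.single_le_sum (f := fun i => ∑ j, x j i * x j i)
    (fun i _ => Finset.sum_nonneg fun j _ => mul_self_nonneg _) (Finset.mem_univ d))

lemma adj_br (u w y : Matrix ι ι ℝ) : (yᵀ * br uᵀ w).trace = ((br u y)ᵀ * w).trace := by
  unfold br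
  rw [mul_sub, trace_sub, transpose_sub, transpose_mul, transpose_mul, sub_mul, trace_sub]
  congr 1
  · rw [mul_assoc]
  · rw [← mul_assoc, trace_mul_comm, mul_assoc]

namespace Good

variable {H N : Submodule ℝ (Matrix ι ι ℝ)} {P : Matrix ι ι ℝ →ₗ[ℝ] Matrix ι ι ℝ}

lemma norm_le (hP : Good H N P) (x : Matrix ι ι ℝ) : ((P x)ᵀ * P x).trace ≤ (xᵀ * x).trace := by
  have h1 := trace_nonneg (x - P x)
  have h2 : ((P x)ᵀ * x).trace = (xᵀ * P x).trace := hP.symm x x
  have h3 : ((P x)ᵀ * P x).trace = (xᵀ * P x).trace := by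
    rw [hP.symm x (P x), hP.idem]
  rw [transpose_sub, sub_mul, mul_sub, mul_sub, trace_sub, trace_sub, trace_sub, h2, h3] at h1
  rw [h3]
  linarith

lemma entry_le (hP : Good H N P) (a b c d : ι) : |P (un a b) c d| ≤ 1 := by
  have h1 := (entry_sq_le (P (un a b)) c d).trans (hP.norm_le (un a b))
  have h2 : ((un a b)ᵀ * un a b).trace = 1 := by
    rw [Matrix.transpose_single, Matrix.single_mul_single_same, Matrix.trace_single_eq_same]
    norm_num
  rw [h2] at h1
  exact abs_le_of_sq_le_sq' (by nlinarith) zero_le_one |> abs_le.2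

/-- `[L, L^⊥] ⊆ L^⊥`. -/
lemma br_perp (hP : Good H N P) {x u : Matrix ι ι ℝ} (hx : P x = x) (hu : P u = 0) :
    P (br x u) = 0 := by
  refine eq_zero_of_trace ?_
  rw [hP.symm, hP.idem]
  have hxt : P xᵀ = xᵀ := by rw [hP.tr, hx]
  set v := P (br x u) with hv
  have hPv : P v = v := hP.idem _
  have h1 : (vᵀ * br x u).trace = ((br xᵀ v)ᵀ * u).trace := by
    have := adj_br xᵀ u v
    rwa [transpose_transpose] at this
  have h2 : ((br x u)ᵀ * v).trace = (vᵀ * br x u).trace := by
    rw [← trace_transpose, transpose_mul, transpose_transpose]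
  have h3 : P (br xᵀ v) = br xᵀ v := by
    have := hP.lie xᵀ v
    rwa [hxt, hPv] at this
  rw [h2, h1, ← h3, hP.symm, hu, mul_zero, trace_zero]

/-- The projector is equivariant. -/
lemma map_br (hP : Good H N P) {x : Matrix ι ι ℝ} (hx : P x = x) (y : Matrix ι ι ℝ) :
    P (br x y) = br x (P y) := by
  have h1 : y = P y + (y - P y) := by rw [add_sub_cancel]
  have h2 : P (y - P y) = 0 := by rw [map_sub, hP.idem, sub_self]
  conv_lhs => rw [h1]
  rw [br_add_right, map_add, hP.br_perp hx h2, add_zero]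
  have := hP.lie x y
  rwa [hx] at this

end Good

/-- The invariance of the Casimir element of the algebra of all matrices. -/
lemma casimir_full (G : Matrix ι ι ℝ →ₗ[ℝ] Matrix ι ι ℝ →ₗ[ℝ] Matrix ι ι ℝ) (x : Matrix ι ι ℝ) :
    ∑ a, ∑ b, (G (br x (un a b)) (un b a) + G (un a b) (br x (un b a))) = 0 := by
  have h1 : ∀ a b, br x (un a b) = ∑ c, x c a • un c b - ∑ c, x b c • un a c := by
    intro a b
    unfold br
    congr 1
    · ext i j
      simp only [Matrix.sum_apply, Matrix.smul_apply, smul_eq_mul, Matrix.mul_apply,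
        Matrix.single_apply]
      simp [ite_and, Finset.sum_ite_eq', Finset.sum_ite_eq]
    · ext i j
      simp only [Matrix.sum_apply, Matrix.smul_apply, smul_eq_mul, Matrix.mul_apply,
        Matrix.single_apply]
      simp [ite_and, Finset.sum_ite_eq', Finset.sum_ite_eq]
  simp only [h1, map_sub, map_sum, map_smul, LinearMap.sub_apply, LinearMap.sum_apply,
    LinearMap.smul_apply, Finset.sum_add_distrib, Finset.sum_sub_distrib]
  have e1 : ∑ a, ∑ b, ∑ c, x c a • (G (un c b)) (un b a) =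
      ∑ a, ∑ b, ∑ c, x a c • (G (un a b)) (un b c) := by
    calc _ = ∑ c, ∑ b, ∑ a, x c a • (G (un c b)) (un b a) := by
          rw [Finset.sum_comm]
          conv_lhs => enter [2, b]; rw [Finset.sum_comm]
          rw [Finset.sum_comm]
      _ = _ := rfl
  have e2 : ∑ a, ∑ b, ∑ c, x b c • (G (un a c)) (un b a) =
      ∑ a, ∑ b, ∑ c, x c b • (G (un a b)) (un c a) := by
    refine Finset.sum_congr rfl fun a _ => ?_
    rw [Finset.sum_comm]
  rw [e1, e2]
  abel

section casimir

variable {H N : Submodule ℝ (Matrix ι ι ℝ)} {P : Matrix ι ι ℝ →ₗ[ℝ] Matrix ι ι ℝ}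

/-- The bracket as a bilinear map. -/
def brL (ψ : Matrix ι ι ℝ →ₗ[ℝ] Matrix ι ι ℝ) :
    Matrix ι ι ℝ →ₗ[ℝ] Matrix ι ι ℝ →ₗ[ℝ] Matrix ι ι ℝ :=
  LinearMap.mk₂ ℝ (fun u v => br v (ψ u))
    (fun u u' v => by rw [map_add, br_add_right]) (fun a u v => by rw [map_smul, br_smul_right])
    (fun u v v' => by rw [br_add_left]) (fun a u v => by rw [br_smul_left])

/-- The invariance of the Casimir element of the image of `P`. -/
lemma casimir_inv (hP : Good H N P) (ψ : Matrix ι ι ℝ →ₗ[ℝ] Matrix ι ι ℝ) {x : Matrix ι ι ℝ}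
    (hx : P x = x) :
    ∑ a, ∑ b, (br (P (un b a)) (ψ (br x (P (un a b)))) +
      br (br x (P (un b a))) (ψ (P (un a b)))) = 0 := by
  have h := casimir_full ((brL ψ).compl₁₂ P P) x
  simp only [LinearMap.compl₁₂_apply, hP.map_br hx] at h
  exact h

/-- The Casimir operator. -/
def cas (P : Matrix ι ι ℝ →ₗ[ℝ] Matrix ι ι ℝ) (y : Matrix ι ι ℝ) : Matrix ι ι ℝ :=
  ∑ a, ∑ b, br (P (un b a)) (br (P (un a b)) y)

lemma un_transpose (a b : ι) : (un a b)ᵀ = un b a := Matrix.transpose_single _ _ _

/-- The kernel of the Casimir operator is the commutant. -/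
lemma br_eq_zero_of_cas (hP : Good H N P) {y : Matrix ι ι ℝ} (h : cas P y = 0)
    {x : Matrix ι ι ℝ} (hx : P x = x) : br x y = 0 := by
  have h1 : (yᵀ * cas P y).trace =
      ∑ a, ∑ b, ((br (P (un a b)) y)ᵀ * br (P (un a b)) y).trace := by
    rw [cas, Matrix.mul_sum, trace_sum]
    refine Finset.sum_congr rfl fun a _ => ?_
    rw [Matrix.mul_sum, trace_sum]
    refine Finset.sum_congr rfl fun b _ => ?_
    rw [← un_transpose a b, hP.tr, adj_br]
  rw [h, mul_zero, trace_zero] at h1
  have h2 : ∀ a b, br (P (un a b)) y = 0 := by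
    intro a b
    refine eq_zero_of_trace ?_
    have h3 := (Finset.sum_eq_zero_iff_of_nonneg fun a _ =>
      Finset.sum_nonneg fun b _ => trace_nonneg (br (P (un a b)) y)).1 h1.symm a (Finset.mem_univ a)
    exact (Finset.sum_eq_zero_iff_of_nonneg fun b _ => trace_nonneg (br (P (un a b)) y)).1 h3 b
      (Finset.mem_univ b)
  rw [← hx, map_sum_un P x]
  have h4 : ∀ z : Matrix ι ι ℝ, br z y = -br y z := fun z => by unfold br; abel
  rw [h4]
  have h5 : br y (∑ a, ∑ b, x a b • P (un a b)) = ∑ a, ∑ b, x a b • br y (P (un a b)) := by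
    unfold br
    simp only [Matrix.mul_sum, Matrix.sum_mul, smul_sub, Finset.sum_sub_distrib, mul_smul_comm,
      smul_mul_assoc]
  rw [h5, neg_eq_zero]
  refine Finset.sum_eq_zero fun a _ => Finset.sum_eq_zero fun b _ => ?_
  have h6 : br y (P (un a b)) = 0 := by
    have := h4 (P (un a b))
    rw [h2 a b] at this
    exact neg_eq_zero.1 this.symm
  rw [h6, smul_zero]

/-- An infinitesimal deformation is trivial. -/
theorem rigid (hNE : ∀ x ∈ N, ∀ y, (∀ h ∈ H, h * y = y * h) → x * y = y * x)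
    (hP : Good H N P) {ψ : Matrix ι ι ℝ →ₗ[ℝ] Matrix ι ι ℝ}
    (h1 : ∀ x, P (ψ x) + ψ (P x) = ψ x) (hs : ∀ x y, ((ψ x)ᵀ * y).trace = (xᵀ * ψ y).trace)
    (h2 : ∀ x y, P x = x → P y = y →
      ψ (br x y) + P (br (ψ x) y + br x (ψ y)) = br (ψ x) y + br x (ψ y))
    (h3 : ∀ h ∈ H, ψ h = 0) (h4 : ∀ x, ψ x ∈ N) : ψ = 0 := by
  have hperp : ∀ x, P x = x → P (ψ x) = 0 := by
    intro x hx
    have := h1 x
    rw [hx] at this
    simpa using this
  have hco : ∀ x y, P x = x → P y = y → ψ (br x y) = br (ψ x) y + br x (ψ y) := by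
    intro x y hx hy
    have e := h2 x y hx hy
    have e1 : P (br x (ψ y)) = 0 := hP.br_perp hx (hperp y hy)
    have e2 : P (br (ψ x) y) = 0 := by
      have : br (ψ x) y = -br y (ψ x) := by unfold br; abel
      rw [this, map_neg, hP.br_perp hy (hperp x hx), neg_zero]
    rw [map_add, e1, e2, add_zero, add_zero] at e
    exact e
  set m : Matrix ι ι ℝ := ∑ a, ∑ b, br (P (un b a)) (ψ (P (un a b))) with hm
  -- the bracket with `m`
  have hbm : ∀ x, P x = x → br x m = cas P (ψ x) := by
    intro x hx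
    have e1 : br x m = ∑ a, ∑ b, br x (br (P (un b a)) (ψ (P (un a b)))) := by
      rw [hm, br_sum_right]
      exact Finset.sum_congr rfl fun a _ => br_sum_right _ _ _
    have e2 := casimir_inv hP ψ hx
    rw [e1, cas, ← sub_eq_zero, ← e2, ← Finset.sum_sub_distrib]
    refine Finset.sum_congr rfl fun a _ => ?_
    rw [← Finset.sum_sub_distrib]
    refine Finset.sum_congr rfl fun b _ => ?_
    have e3 := hco x (P (un a b)) hx (hP.idem _)
    have e4 : br (ψ x) (P (un a b)) = -br (P (un a b)) (ψ x) := by unfold br; abel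
    rw [jacobi, e3, br_add_right, e4]
    have e5 : br (P (un b a)) (-br (P (un a b)) (ψ x)) = -br (P (un b a)) (br (P (un a b)) (ψ x)) := by
      unfold br; noncomm_ring
    rw [e5]
    abel
  -- `m` is in the commutant of `H`
  have hmH : ∀ h ∈ H, h * m = m * h := by
    intro h hh
    have e := hbm h (hP.onH h hh)
    rw [h3 h hh] at e
    have e0 : cas P (0 : Matrix ι ι ℝ) = 0 := by
      unfold cas
      simp only [br_zero_right, Finset.sum_const_zero]
    rw [e0] at e
    exact br_eq_zero.1 e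
  have hzero : ∀ x, P x = x → ψ x = 0 := by
    intro x hx
    have hxN : x ∈ N := hx ▸ hP.memN x
    have e1 : br x m = 0 := br_eq_zero.2 (hNE x hxN m hmH)
    have e2 : cas P (ψ x) = 0 := by rw [← hbm x hx, e1]
    have e3 : ∀ h ∈ H, h * ψ x = ψ x * h := fun h hh =>
      br_eq_zero.1 (br_eq_zero_of_cas hP e2 (hP.onH h hh))
    rw [← hP.onZ (ψ x) (h4 x) e3]
    exact hperp x hx
  refine LinearMap.ext fun y => ?_
  rw [LinearMap.zero_apply]
  have e1 : y = P y + (y - P y) := by rw [add_sub_cancel]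
  rw [e1, map_add, hzero _ (hP.idem y), zero_add]
  set u := y - P y with hu
  have hPu : P u = 0 := by rw [hu, map_sub, hP.idem, sub_self]
  have e2 : P (ψ u) = ψ u := by
    have := h1 u
    rwa [hPu, map_zero, add_zero] at this
  refine eq_zero_of_trace ?_
  rw [hs, hzero _ e2, mul_zero, trace_zero]

end casimir

/-- **The finiteness theorem.** -/
theorem finite_good {H N : Submodule ℝ (Matrix ι ι ℝ)}
    (hNE : ∀ x ∈ N, ∀ y, (∀ h ∈ H, h * y = y * h) → x * y = y * x) :
    {P : Matrix ι ι ℝ →ₗ[ℝ] Matrix ι ι ℝ | Good H N P}.Finite := by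
  by_contra hinf
  have hinf' : {P : Matrix ι ι ℝ →ₗ[ℝ] Matrix ι ι ℝ | Good H N P}.Infinite := hinf
  let e := hinf'.natEmbedding
  let f : ℕ → (Matrix ι ι ℝ →ₗ[ℝ] Matrix ι ι ℝ) := fun i => (e i : _)
  have hf : ∀ i, Good H N (f i) := fun i => (e i).2
  have hinj : Function.Injective f := fun i j h => e.injective (Subtype.ext h)
  let U : Ultrafilter ℕ := hyperfilter ℕ
  obtain ⟨P, hP⟩ := exists_lim_linear U (f := f) (M := 1)
    fun a b c d => Eventually.of_forall fun i => (hf i).entry_le a b c d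
  have hNc : IsClosed (N : Set (Matrix ι ι ℝ)) := N.closed_of_finiteDimensional
  have htr : ∀ {F : Filter ℕ} {x : ℕ → Matrix ι ι ℝ} {x₀ : Matrix ι ι ℝ}, Tendsto x F (𝓝 x₀) →
      Tendsto (fun i => (x i)ᵀ) F (𝓝 x₀ᵀ) := fun h =>
    (continuous_id.matrix_transpose.tendsto _).comp h
  have htc : ∀ {F : Filter ℕ} {x : ℕ → Matrix ι ι ℝ} {x₀ : Matrix ι ι ℝ}, Tendsto x F (𝓝 x₀) →
      Tendsto (fun i => (x i).trace) F (𝓝 x₀.trace) := fun h =>
    (continuous_id.matrix_trace.tendsto _).comp h
  -- the limit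
  have hG : Good H N P :=
    { idem := fun x => tendsto_nhds_unique (tendsto_apply hP (hP x))
        ((hP x).congr fun i => ((hf i).idem x).symm)
      symm := fun x y => tendsto_nhds_unique (htc ((htr (hP x)).mul tendsto_const_nhds))
        ((htc (tendsto_const_nhds.mul (hP y))).congr fun i => ((hf i).symm x y).symm)
      tr := fun x => tendsto_nhds_unique (hP xᵀ) ((htr (hP x)).congr fun i => ((hf i).tr x).symm)
      lie := fun x y => tendsto_nhds_unique (tendsto_apply hP (tendsto_br (hP x) (hP y)))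
        ((tendsto_br (hP x) (hP y)).congr fun i => ((hf i).lie x y).symm)
      onH := fun h hh => tendsto_nhds_unique (hP h)
        (tendsto_const_nhds.congr fun i => ((hf i).onH h hh).symm)
      memN := fun x => hNc.mem_of_tendsto (hP x) (Eventually.of_forall fun i => (hf i).memN x)
      onZ := fun z hz hc => tendsto_nhds_unique (hP z)
        (tendsto_const_nhds.congr fun i => ((hf i).onZ z hz hc).symm) }
  -- the distance
  let D : ℕ → ℝ := fun i => ∑ a, ∑ b, ∑ c, ∑ d, |(f i (un a b) - P (un a b)) c d|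
  have hD0 : ∀ i, 0 ≤ D i := fun i => Finset.sum_nonneg fun a _ => Finset.sum_nonneg fun b _ =>
    Finset.sum_nonneg fun c _ => Finset.sum_nonneg fun d _ => abs_nonneg _
  have hDle : ∀ i a b c d, |(f i (un a b) - P (un a b)) c d| ≤ D i := by
    intro i a b c d
    calc _ ≤ ∑ d, |(f i (un a b) - P (un a b)) c d| :=
          Finset.single_le_sum (f := fun d => |(f i (un a b) - P (un a b)) c d|)
            (fun d _ => abs_nonneg _) (Finset.mem_univ d)
      _ ≤ ∑ c, ∑ d, |(f i (un a b) - P (un a b)) c d| :=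
          Finset.single_le_sum (f := fun c => ∑ d, |(f i (un a b) - P (un a b)) c d|)
            (fun c _ => Finset.sum_nonneg fun d _ => abs_nonneg _) (Finset.mem_univ c)
      _ ≤ ∑ b, ∑ c, ∑ d, |(f i (un a b) - P (un a b)) c d| :=
          Finset.single_le_sum (f := fun b => ∑ c, ∑ d, |(f i (un a b) - P (un a b)) c d|)
            (fun b _ => Finset.sum_nonneg fun c _ => Finset.sum_nonneg fun d _ => abs_nonneg _)
            (Finset.mem_univ b)
      _ ≤ D i :=
          Finset.single_le_sum (f := fun a => ∑ b, ∑ c, ∑ d, |(f i (un a b) - P (un a b)) c d|)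
            (fun a _ => Finset.sum_nonneg fun b _ => Finset.sum_nonneg fun c _ =>
              Finset.sum_nonneg fun d _ => abs_nonneg _)
            (Finset.mem_univ a)
  have hDz : ∀ i, D i = 0 → f i = P := by
    intro i hi
    refine LinearMap.ext fun x => ?_
    rw [map_sum_un (f i) x, map_sum_un P x]
    refine Finset.sum_congr rfl fun a _ => Finset.sum_congr rfl fun b _ => ?_
    congr 1
    ext c d
    have h1 := hDle i a b c d
    rw [hi] at h1
    have h2 := abs_nonpos_iff.1 h1
    rw [Matrix.sub_apply, sub_eq_zero] at h2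
    exact h2
  have hev : ∀ᶠ i in (U : Filter ℕ), D i ≠ 0 := by
    have h1 : {i | f i = P}.Finite := by
      refine Set.Subsingleton.finite fun i hi j hj => hinj ?_
      rw [Set.mem_ofPred_eq] at hi hj
      rw [hi, hj]
    have h2 : ∀ᶠ i in (cofinite : Filter ℕ), f i ≠ P := h1.compl_mem_cofinite
    have h3 : ∀ᶠ i in (U : Filter ℕ), f i ≠ P := hyperfilter_le_cofinite h2
    filter_upwards [h3] with i hi h
    exact hi (hDz i h)
  have hD : Tendsto D U (𝓝 0) := by
    have h1 : ∀ a b, Tendsto (fun i => f i (un a b) - P (un a b)) U (𝓝 0) := fun a b => by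
      have := (hP (un a b)).sub (tendsto_const_nhds (x := P (un a b)))
      rwa [sub_self] at this
    have h2 : ∀ a b c d, Tendsto (fun i => |(f i (un a b) - P (un a b)) c d|) U (𝓝 0) := by
      intro a b c d
      have := ((tendsto_matrix.1 (h1 a b)) c d).abs
      simpa using this
    have h3 := tendsto_finsetSum (s := Finset.univ) (f := fun a i =>
      ∑ b, ∑ c, ∑ d, |(f i (un a b) - P (un a b)) c d|) (x := (U : Filter ℕ)) (a := fun _ => (0 : ℝ))
      fun a _ => by
        have h4 := tendsto_finsetSum (s := Finset.univ) (f := fun b i =>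
          ∑ c, ∑ d, |(f i (un a b) - P (un a b)) c d|) (x := (U : Filter ℕ)) (a := fun _ => (0 : ℝ))
          fun b _ => by
            have h5 := tendsto_finsetSum (s := Finset.univ) (f := fun c i =>
              ∑ d, |(f i (un a b) - P (un a b)) c d|) (x := (U : Filter ℕ)) (a := fun _ => (0 : ℝ))
              fun c _ => by
                have h6 := tendsto_finsetSum (s := Finset.univ) (f := fun d i =>
                  |(f i (un a b) - P (un a b)) c d|) (x := (U : Filter ℕ)) (a := fun _ => (0 : ℝ))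
                  fun d _ => h2 a b c d
                simpa using h6
            simpa using h5
        simpa using h4
    simpa [D] using h3
  -- the normalized differences
  let ψ : ℕ → (Matrix ι ι ℝ →ₗ[ℝ] Matrix ι ι ℝ) := fun i => (D i)⁻¹ • (f i - P)
  obtain ⟨Ψ, hΨ⟩ := exists_lim_linear U (f := ψ) (M := 1) fun a b c d => by
    filter_upwards [hev] with i hi
    have h1 : (ψ i) (un a b) c d = (D i)⁻¹ * (f i (un a b) - P (un a b)) c d := rfl
    rw [h1, abs_mul, abs_of_nonneg (inv_nonneg.2 (hD0 i)), inv_mul_le_iff₀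
      (lt_of_le_of_ne (hD0 i) (Ne.symm hi)), mul_one]
    exact hDle i a b c d
  have hψ : ∀ i, D i ≠ 0 → ∀ x, f i x = P x + D i • ψ i x := by
    intro i hi x
    change f i x = P x + D i • ((D i)⁻¹ • (f i x - P x))
    rw [smul_smul, mul_inv_cancel₀ hi, one_smul, add_sub_cancel]
  have hzero : Ψ = 0 := by
    refine rigid hNE hG ?_ ?_ ?_ ?_ ?_
    · intro x
      refine tendsto_nhds_unique ((tendsto_apply hP (hΨ x)).add (hΨ (P x))) ((hΨ x).congr' ?_)
      filter_upwards [hev] with i hi
      have h1 := (hf i).idem x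
      have h2 : D i • ψ i x = D i • (f i (ψ i x) + ψ i (P x)) := by
        rw [smul_add, ← map_smul (f i)]
        have h3 := hψ i hi x
        have h4 := hψ i hi (P x)
        rw [hG.idem] at h4
        have h5 : f i (f i x) = f i (P x) + f i (D i • ψ i x) := by
          conv_lhs => rw [h3]
          rw [map_add]
        rw [h1, h3, h4] at h5
        have h6 : P x + (D i • ψ i x) = P x + (f i (D i • ψ i x) + D i • ψ i (P x)) := by
          rw [h5]; abel
        exact add_left_cancel h6
      exact smul_right_injective _ hi h2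
    · intro x y
      refine tendsto_nhds_unique (htc ((htr (hΨ x)).mul tendsto_const_nhds))
        ((htc (tendsto_const_nhds.mul (hΨ y))).congr fun i => ?_)
      change (xᵀ * ((D i)⁻¹ • (f i y - P y))).trace = (((D i)⁻¹ • (f i x - P x))ᵀ * y).trace
      rw [transpose_smul, smul_mul_assoc, mul_smul_comm, trace_smul, trace_smul, transpose_sub,
        sub_mul, mul_sub, trace_sub, trace_sub, (hf i).symm, hG.symm]
    · intro x y hx hy
      have t1 : Tendsto (fun i => br (ψ i x) y + br x (ψ i y)) U (𝓝 (br (Ψ x) y + br x (Ψ y))) :=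
        (tendsto_br (hΨ x) tendsto_const_nhds).add (tendsto_br tendsto_const_nhds (hΨ y))
      have t2 : Tendsto (fun i => D i • br (ψ i x) (ψ i y)) U (𝓝 0) := by
        have := hD.smul (tendsto_br (hΨ x) (hΨ y))
        rwa [zero_smul] at this
      have t3 : Tendsto (fun i => (br (ψ i x) y + br x (ψ i y)) + D i • br (ψ i x) (ψ i y)) U
          (𝓝 (br (Ψ x) y + br x (Ψ y))) := by
        have := t1.add t2
        rwa [add_zero] at this
      refine tendsto_nhds_unique ((hΨ (br x y)).add (tendsto_apply hP t3)) (t3.congr' ?_)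
      filter_upwards [hev] with i hi
      have e0 : P (br x y) = br x y := by
        have := hG.lie x y
        rwa [hx, hy] at this
      have e1 := (hf i).lie x y
      have e2 : br (f i x) (f i y) = br x y +
          D i • ((br (ψ i x) y + br x (ψ i y)) + D i • br (ψ i x) (ψ i y)) := by
        rw [hψ i hi x, hψ i hi y, hx, hy, br_add_left, br_add_right, br_add_right, br_smul_left,
          br_smul_right, br_smul_left, br_smul_right, smul_add, smul_add]
        abel
      rw [e2, map_add, map_smul, hψ i hi (br x y), e0, add_assoc, ← smul_add] at e1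
      exact (smul_right_injective _ hi (add_left_cancel e1)).symm
    · intro h hh
      refine tendsto_nhds_unique (hΨ h) (tendsto_const_nhds.congr fun i => ?_)
      change 0 = (D i)⁻¹ • (f i h - P h)
      rw [(hf i).onH h hh, hG.onH h hh, sub_self, smul_zero]
    · intro x
      refine hNc.mem_of_tendsto (hΨ x) (Eventually.of_forall fun i => ?_)
      exact N.smul_mem _ (sub_mem ((hf i).memN x) (hG.memN x))
  -- the normalization
  have hone : Tendsto (fun i => ∑ a, ∑ b, ∑ c, ∑ d, |ψ i (un a b) c d|) U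
      (𝓝 (∑ a, ∑ b, ∑ c, ∑ d, |Ψ (un a b) c d|)) :=
    tendsto_finsetSum _ fun a _ => tendsto_finsetSum _ fun b _ => tendsto_finsetSum _ fun c _ =>
      tendsto_finsetSum _ fun d _ => ((tendsto_matrix.1 (hΨ (un a b))) c d).abs
  have hone' : Tendsto (fun i => ∑ a, ∑ b, ∑ c, ∑ d, |ψ i (un a b) c d|) U (𝓝 1) := by
    refine tendsto_const_nhds.congr' ?_
    filter_upwards [hev] with i hi
    have h1 : ∀ a b c d, |ψ i (un a b) c d| = (D i)⁻¹ * |(f i (un a b) - P (un a b)) c d| := by
      intro a b c d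
      have h1 : (ψ i) (un a b) c d = (D i)⁻¹ * (f i (un a b) - P (un a b)) c d := rfl
      rw [h1, abs_mul, abs_of_nonneg (inv_nonneg.2 (hD0 i))]
    simp only [h1, ← Finset.mul_sum]
    exact (inv_mul_cancel₀ hi).symm
  have := tendsto_nhds_unique hone hone'
  rw [hzero] at this
  simp at this

end Pool.Agent.D0H93.VH
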