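import Pool.Agent.D0H93.VH.Zero

/-!
# Test members
-/

set_option autoImplicit false
set_option linter.unusedSectionVars false
set_option linter.unusedVariables false

open Matrix Module

namespace Pool.Agent.D0H93.VH

open Pool.Agent.D0H93.MT

variable {ι : Type} [Fintype ι] [DecidableEq ι] {w : ℤ} {B Γ : Type} [Group Γ]
  {V : Variation ι w B Γ} (C : CycleClasses V)

theorem on_empty {n : ℕ} {c : Matrix (Fin n → ι) (Fin n → ι) ℚ} :
    C.On ∅ n c ↔ FlatHodge V n c :=
  ⟨fun h => h.1, fun h => ⟨h, fun b hb => absurd hb (Set.notMem_empty b)⟩⟩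

theorem on_family_empty : C.On ∅ = FlatHodge V := by
  funext n c
  exact propext (on_empty C)

theorem on_of_ann_le {T T' : Set B} (h : ann (C.On T') ≤ ann (C.On T)) {n : ℕ}
    {c : Matrix (Fin n → ι) (Fin n → ι) ℚ} (hc : C.On T n c) : C.On T' n c :=
  (on_iff C).2 fun x hx => h hx n c hc

/-- Greedy choice of test members. -/
theorem exists_test (X : Set B) : ∃ T : Finset B, (T : Set B) ⊆ X ∧
    T.card + finrank ℚ (ann (FlatHodge V)) ≤ finrank ℚ (ann (C.On (T : Set B))) ∧
    ∀ n (c : Matrix (Fin n → ι) (Fin n → ι) ℚ), C.On (T : Set B) n c → C.On X n c := by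
  classical
  set D := finrank ℚ (Matrix ι ι ℚ) with hD
  let p : ℕ → Prop := fun m => ∃ T : Finset B, (T : Set B) ⊆ X ∧
    T.card + finrank ℚ (ann (FlatHodge V)) ≤ finrank ℚ (ann (C.On (T : Set B))) ∧
    finrank ℚ (ann (C.On (T : Set B))) = m
  have hp0 : ∃ m, p m := by
    refine ⟨finrank ℚ (ann (C.On ((∅ : Finset B) : Set B))), ∅, by simp, ?_, rfl⟩
    rw [Finset.card_empty, zero_add, Finset.coe_empty, on_family_empty]
  have hpD : ∀ m, p m → m ≤ D := by
    rintro m ⟨T, -, -, rfl⟩
    exact Submodule.finrank_le _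
  obtain ⟨m, ⟨T, hTX, hT1, hT2⟩, hmax⟩ : ∃ m, p m ∧ ∀ m', p m' → m' ≤ m := by
    obtain ⟨m₀, hm₀⟩ := hp0
    refine ⟨Nat.findGreatest p D, Nat.findGreatest_spec (hpD m₀ hm₀) hm₀, fun m' hm' =>
      Nat.le_findGreatest (hpD m' hm') hm'⟩
  refine ⟨T, hTX, hT1, fun n c hc => ⟨hc.1, fun b hb => ?_⟩⟩
  have hle : ann (C.On (T : Set B)) ≤ ann (C.On ((insert b T : Finset B) : Set B)) :=
    ann_on_mono C (by rw [Finset.coe_insert]; exact Set.subset_insert _ _)
  have heq : ann (C.On (T : Set B)) = ann (C.On ((insert b T : Finset B) : Set B)) := by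
    by_contra hne
    have hlt := Submodule.finrank_lt_finrank_of_lt (lt_of_le_of_ne hle hne)
    have h1 : p (finrank ℚ (ann (C.On ((insert b T : Finset B) : Set B)))) := by
      refine ⟨insert b T, ?_, ?_, rfl⟩
      · rw [Finset.coe_insert]
        exact Set.insert_subset hb hTX
      · have := Finset.card_insert_le b T
        omega
    have := hmax _ h1
    omega
  have h2 := on_of_ann_le C heq.ge hc
  exact h2.2 b (by rw [Finset.coe_insert]; exact Set.mem_insert _ _)

section dim

variable {Q : Matrix ι ι ℚ}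

/-- The similitudes of a form which is symmetric or alternating. -/
theorem finrank_simil (hdet : IsUnit Q.det) {ε : ℚ} (hε : ε = 1 ∨ ε = -1) (hQ : Qᵀ = ε • Q)
    {N : Submodule ℚ (Matrix ι ι ℚ)} (hN : ∀ x ∈ N, ∃ μ : ℚ, xᵀ * Q + Q * x = μ • Q) :
    finrank ℚ N ≤ (Fintype.card ι + 1).choose 2 + 1 := by
  classical
  have hε2 : ε * ε = 1 := by rcases hε with rfl | rfl <;> norm_num
  -- the linear map to the upper triangle and the trace
  let e := Fintype.equivFin ι
  let S : Type := {p : ι × ι // e p.1 ≤ e p.2}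
  let f : N →ₗ[ℚ] (S → ℚ) × ℚ :=
    { toFun := fun x => (fun p => (Q * x.1) p.1.1 p.1.2, x.1.trace)
      map_add' := fun x y => by
        ext <;> simp [mul_add, trace_add]
      map_smul' := fun r x => by
        ext <;> simp [trace_smul] }
  have hinj : Function.Injective f := by
    rw [← LinearMap.ker_eq_bot, LinearMap.ker_eq_bot']
    intro x hx
    obtain ⟨μ, hμ⟩ := hN x.1 x.2
    have h1 : ∀ i j, e i ≤ e j → (Q * x.1) i j = 0 := fun i j hij =>
      congrFun (congrArg Prod.fst hx) (⟨(i, j), hij⟩ : S)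
    have h2 : x.1.trace = 0 := congrArg Prod.snd hx
    -- the multiplier vanishes
    have h3 : μ * Fintype.card ι = 0 := by
      have h4 : Q⁻¹ * x.1ᵀ * Q + x.1 = μ • 1 := by
        have := congrArg (fun M => Q⁻¹ * M) hμ
        simp only [mul_add, mul_smul_comm, ← mul_assoc] at this
        rw [Matrix.nonsing_inv_mul _ hdet, one_mul] at this
        exact this
      have h5 := congrArg Matrix.trace h4
      rw [trace_add, trace_mul_comm, ← mul_assoc, Matrix.mul_nonsing_inv _ hdet, one_mul,
        trace_transpose, h2, trace_smul, trace_one, smul_eq_mul, add_zero] at h5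
      exact h5.symm
    have h6 : (Q * x.1)ᵀ = -(ε • (Q * x.1)) + (ε * μ) • Q := by
      rw [transpose_mul, hQ, mul_smul_comm, eq_sub_of_add_eq hμ, smul_sub, smul_smul]
      abel
    have h7 : Q * x.1 = 0 := by
      ext i j
      rcases mul_eq_zero.1 h3 with h | h
      · rcases le_total (e i) (e j) with hij | hij
        · exact h1 i j hij
        · have h8 := congrFun (congrFun h6 j) i
          rw [Matrix.transpose_apply, h, mul_zero, zero_smul, add_zero, Matrix.neg_apply,
            Matrix.smul_apply, h1 j i hij, smul_zero, neg_zero] at h8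
          exact h8
      · have : IsEmpty ι := by
          rw [← Fintype.card_eq_zero_iff]
          exact_mod_cast h
        exact this.elim i
    refine Subtype.ext ?_
    have h9 := congrArg (fun M => Q⁻¹ * M) h7
    simp only [← mul_assoc, mul_zero] at h9
    rwa [Matrix.nonsing_inv_mul _ hdet, one_mul] at h9
  have h1 := LinearMap.finrank_le_finrank_of_injective hinj
  rw [Module.finrank_prod, Module.finrank_fintype_fun_eq_card, Module.finrank_self] at h1
  have h2 : Fintype.card S = (Fintype.card ι + 1).choose 2 := by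
    rw [← Sym2.card]
    refine Fintype.card_congr (Equiv.ofBijective (fun p : S => s(p.1.1, p.1.2)) ⟨?_, ?_⟩)
    · rintro ⟨⟨a, b⟩, hab⟩ ⟨⟨a', b'⟩, hab'⟩ h
      simp only [Sym2.eq_iff] at h
      rcases h with ⟨rfl, rfl⟩ | ⟨rfl, rfl⟩
      · rfl
      · have : a = b := e.injective (le_antisymm hab hab')
        subst this
        rfl
    · intro z
      induction z using Sym2.ind with
      | _ a b =>
        rcases le_total (e a) (e b) with h | h
        · exact ⟨⟨(a, b), h⟩, rfl⟩
        · exact ⟨⟨(b, a), h⟩, Sym2.eq_swap⟩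
  rw [h2] at h1
  exact h1

end dim

variable [Nonempty ι] [Nonempty B]

theorem finrank_on_le (T : Set B) :
    finrank ℚ (ann (C.On T)) ≤ (Fintype.card ι + 1).choose 2 + 1 := by
  obtain ⟨b⟩ := ‹Nonempty B›
  have hw : ((-1 : ℚ) ^ w) = 1 ∨ ((-1 : ℚ) ^ w) = -1 := by
    rcases Int.even_or_odd w with h | h
    · exact Or.inl h.neg_one_zpow
    · exact Or.inr h.neg_one_zpow
  exact finrank_simil (isUnit_iff_ne_zero.2 (HodgeStructure.det_ne_zero (V.pol b))) hw
    (V.pol b).sym (haveI : Nonempty B := ⟨b⟩; hmul C T)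

theorem one_le_finrank : 1 ≤ finrank ℚ (ann (FlatHodge V)) := by
  have h2 : Nontrivial (ann (FlatHodge V)) :=
    ⟨⟨⟨1, one_mem_ann _⟩, 0, fun h => one_ne_zero (congrArg Subtype.val h)⟩⟩
  exact Module.finrank_pos

theorem helly_main (X : Set B) : ∃ T : Finset B, (T : Set B) ⊆ X ∧
    T.card + finrank ℚ (ann (FlatHodge V)) ≤ finrank ℚ (ann (C.On X)) ∧
    T.card ≤ (Fintype.card ι + 1).choose 2 ∧
    ∀ n (c : Matrix (Fin n → ι) (Fin n → ι) ℚ), C.On (T : Set B) n c ↔ C.On X n c := by
  obtain ⟨T, h1, h2, h3⟩ := exists_test C X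
  refine ⟨T, h1, h2.trans (Submodule.finrank_mono (ann_on_mono C h1)), ?_, fun n c =>
    ⟨h3 n c, on_anti C h1⟩⟩
  have h4 := finrank_on_le C (T : Set B)
  have h5 := one_le_finrank (V := V)
  omega

end Pool.Agent.D0H93.VH
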