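import Pool.Agent.D0H93.VH.Types

/-!
# Finitely many types of members
-/

set_option autoImplicit false
set_option linter.unusedSectionVars false
set_option linter.unusedVariables false

open Matrix

namespace Pool.Agent.D0H93.VH

open Pool.Agent.D0H93.MT

variable {ι : Type} [Fintype ι] [DecidableEq ι] {w : ℤ} {B Γ : Type} [Group Γ]
  {V : Variation ι w B Γ}

/-- The flat endomorphisms of `V` (which are endomorphisms of Hodge structures) are weakly algebraic on
the member at `b`. -/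
def CycleClasses.EndAlg (C : CycleClasses V) (b : B) : Prop :=
  ∀ c : Matrix (Fin 1 → ι) (Fin 1 → ι) ℚ, FlatHodge V 1 c → C.WeaklyAlgebraic b 1 c

/-- The class `c` is invariant under the skew part of the centre of the algebra of the flat
endomorphisms. -/
def Central (V : Variation ι w B Γ) {n : ℕ} (c : Matrix (Fin n → ι) (Fin n → ι) ℚ) : Prop :=
  ∀ z, SkewCentre (FlatHodge V) V.Q z → Kills z c

variable (C : CycleClasses V)

theorem closed_flatHodge : Closed (FlatHodge V) := by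
  refine fun n c h => ⟨isTate_of_killed V.ρ fun x hx => ?_, fun b =>
    (V.S b).isHodge_of_killed fun x hx => ?_⟩
  · exact h x fun m c' hc' => hx m c' hc'.1
  · exact h x fun m c' hc' => hx m c' (hc'.2 b)

variable [Nonempty ι] [Nonempty B]

theorem between_on {T : Set B} (hT : ∀ b ∈ T, C.EndAlg b) : Between (FlatHodge V) V.Q (C.On T) :=
  { closed := fun n c h => (on_iff C).2 h
    le := fun n c h => h.1
    form := on_form C T
    one := fun c hc => ⟨hc, fun b hb => hT b hb c hc⟩ }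

theorem finite_algebras : {L : Submodule ℚ (Matrix ι ι ℚ) | ∃ P, Between (FlatHodge V) V.Q P ∧
    L = ann P ⊔ skewC (FlatHodge V) V.Q}.Finite :=
  finite_big (V.pol (Classical.arbitrary B)) (fun n c h => h.2 _) closed_flatHodge

theorem on_of_eq {T T' : Set B} (h : ann (C.On T) ⊔ skewC (FlatHodge V) V.Q =
      ann (C.On T') ⊔ skewC (FlatHodge V) V.Q) {n : ℕ} {c : Matrix (Fin n → ι) (Fin n → ι) ℚ}
    (hc : Central V c) (h1 : C.On T n c) : C.On T' n c := by
  refine (on_iff C).2 fun x hx => ?_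
  have h2 : x ∈ ann (C.On T) ⊔ skewC (FlatHodge V) V.Q := h ▸ Submodule.mem_sup_left hx
  obtain ⟨a, ha, z, hz, rfl⟩ := Submodule.mem_sup.1 h2
  exact (ha n c h1).add (hc z hz)

theorem types_main :
    ∃ (r : ℕ) (τ : B → Fin r),
      (∀ b b', C.EndAlg b → C.EndAlg b' → τ b = τ b' →
        ∀ n (c : Matrix (Fin n → ι) (Fin n → ι) ℚ), Central V c →
          (C.FlatAlgebraic b n c ↔ C.FlatAlgebraic b' n c)) ∧
      {A : Set B | ∃ (n : ℕ) (c : Matrix (Fin n → ι) (Fin n → ι) ℚ), FlatHodge V n c ∧ Central V c ∧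
        A = {b | C.EndAlg b ∧ C.WeaklyAlgebraic b n c}}.Finite ∧
      (∀ X : Set B, (∀ b ∈ X, C.EndAlg b) → ∃ T : Finset B, (T : Set B) ⊆ X ∧ T.card ≤ r ∧
        ∀ n (c : Matrix (Fin n → ι) (Fin n → ι) ℚ), Central V c →
          C.On (T : Set B) n c → C.On X n c) ∧
      (NoTypeIV (ann (FlatHodge V)) V.Q →
        ∀ n (c : Matrix (Fin n → ι) (Fin n → ι) ℚ), Central V c) := by
  classical
  have hfin := finite_algebras (V := V)
  set 𝓢 := {L : Submodule ℚ (Matrix ι ι ℚ) | ∃ P, Between (FlatHodge V) V.Q P ∧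
    L = ann P ⊔ skewC (FlatHodge V) V.Q} with h𝓢
  have hfin' : (insert ⊥ 𝓢).Finite := hfin.insert _
  have : Finite (insert ⊥ 𝓢 : Set (Submodule ℚ (Matrix ι ι ℚ))) := hfin'
  obtain ⟨r, ⟨e⟩⟩ := Finite.exists_equiv_fin (insert ⊥ 𝓢 : Set (Submodule ℚ (Matrix ι ι ℚ)))
  let g : B → Submodule ℚ (Matrix ι ι ℚ) := fun b =>
    if C.EndAlg b then ann (C.On {b}) ⊔ skewC (FlatHodge V) V.Q else ⊥
  have hg : ∀ b, g b ∈ insert ⊥ 𝓢 := by
    intro b
    by_cases h : C.EndAlg b
    · refine Or.inr ⟨C.On {b}, between_on C fun b' hb' => ?_, if_pos h⟩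
      rw [Set.mem_singleton_iff] at hb'
      rwa [hb']
    · exact Or.inl (if_neg h)
  let τ : B → Fin r := fun b => e ⟨g b, hg b⟩
  have hτ : ∀ b b', C.EndAlg b → C.EndAlg b' → τ b = τ b' →
      ∀ n (c : Matrix (Fin n → ι) (Fin n → ι) ℚ), Central V c →
        (C.FlatAlgebraic b n c ↔ C.FlatAlgebraic b' n c) := by
    intro b b' hb hb' h n c hc
    have h1 : g b = g b' := congrArg Subtype.val (e.injective h)
    have h2 : ann (C.On {b}) ⊔ skewC (FlatHodge V) V.Q =
        ann (C.On {b'}) ⊔ skewC (FlatHodge V) V.Q := by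
      have e1 : g b = _ := if_pos hb
      have e2 : g b' = _ := if_pos hb'
      rw [← e1, ← e2, h1]
    rw [← on_singleton, ← on_singleton]
    exact ⟨on_of_eq C h2 hc, on_of_eq C h2.symm hc⟩
  refine ⟨r, τ, hτ, ?_, ?_, ?_⟩
  · refine (Set.finite_range fun s : Set (Fin r) => {b | C.EndAlg b ∧ τ b ∈ s}).subset ?_
    rintro _ ⟨n, c, hc, hz, rfl⟩
    refine ⟨τ '' {b | C.EndAlg b ∧ C.WeaklyAlgebraic b n c}, ?_⟩
    ext b
    constructor
    · rintro ⟨hb, b', ⟨hb1, hb2⟩, hb3⟩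
      exact ⟨hb, ((hτ b' b hb1 hb hb3 n c hz).1 ⟨hc.1, hb2⟩).2⟩
    · rintro ⟨hb, hb'⟩
      exact ⟨hb, b, ⟨hb, hb'⟩, rfl⟩
  · intro X hX
    -- representatives
    let S : Finset (Fin r) := Finset.univ.filter fun t => ∃ b ∈ X, τ b = t
    have hS : ∀ t : S, ∃ b ∈ X, τ b = t := fun t => (Finset.mem_filter.1 t.2).2
    choose f hf hf' using hS
    refine ⟨Finset.univ.image f, ?_, ?_, ?_⟩
    · intro b hb
      rw [Finset.coe_image] at hb
      obtain ⟨t, -, rfl⟩ := hb
      exact hf t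
    · refine Finset.card_image_le.trans ?_
      rw [Finset.card_univ, Fintype.card_coe]
      exact (Finset.card_le_univ _).trans (by rw [Fintype.card_fin])
    · intro n c hz hc
      refine ⟨hc.1, fun b hb => ?_⟩
      have hbS : τ b ∈ S := Finset.mem_filter.2 ⟨Finset.mem_univ _, b, hb, rfl⟩
      have h1 := hc.2 (f ⟨τ b, hbS⟩) (by
        rw [Finset.coe_image]
        exact ⟨⟨τ b, hbS⟩, Finset.mem_coe.2 (Finset.mem_univ _), rfl⟩)
      have h2 := hτ (f ⟨τ b, hbS⟩) b (hX _ (hf _)) (hX _ hb) (hf' ⟨τ b, hbS⟩) n c hz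
      exact (h2.1 ⟨hc.1.1, h1⟩).2
  · intro hIV n c z hz
    rw [skewCentre_eq_zero (V := V) hIV hz]
    exact Kills.zero c

end Pool.Agent.D0H93.VH
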