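import Pool.Agent.D0H93.VH.Defs

/-!
# The second tensor power decides the variational Hodge conjecture
-/

set_option autoImplicit false
set_option linter.unusedSectionVars false
set_option linter.unusedVariables false

open Matrix

namespace Pool.Agent.D0H93.VH

open Pool.Agent.D0H93.MT

variable {ι : Type} [Fintype ι] [DecidableEq ι] {w : ℤ} {B Γ : Type} [Group Γ]

theorem semisimple_of_le {S : HodgeStructure ι w} {Q : Matrix ι ι ℚ} (hQ : S.IsPolarization Q)
    {N : Submodule ℚ (Matrix ι ι ℚ)} (hle : ann S.IsHodge ≤ N)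
    (hmul : ∀ x ∈ N, ∃ μ : ℚ, xᵀ * Q + Q * x = μ • Q) : Semisimple N := by
  intro U hU
  set B : LinearMap.BilinForm ℚ (ι → ℚ) := Matrix.toBilin' Q with hB
  have hBa : ∀ u v, B u v = u ⬝ᵥ Q *ᵥ v := fun u v => Matrix.toBilin'_apply' Q u v
  have hsw : ∀ u v, B v u = (-1 : ℚ) ^ w * B u v := by
    intro u v
    rw [hBa, hBa, Matrix.dotProduct_mulVec, ← Matrix.mulVec_transpose, hQ.sym, Matrix.smul_mulVec,
      smul_dotProduct, smul_eq_mul, dotProduct_comm]
  have hrefl : B.IsRefl := by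
    intro u v h
    rw [hsw, h, mul_zero]
  have hinj : ∀ u ∈ U, (∀ u' ∈ U, B u' u = 0) → u = 0 := by
    intro u hu h
    by_contra hne
    have hne' : (fun i => (u i : ℝ)) ≠ 0 := by
      intro h'
      apply hne
      ext i
      have h2 := congrFun h' i
      simpa using h2
    have hpos := hQ.pos _ hne'
    have huC : (fun i => (((u i : ℚ) : ℝ) : ℂ)) ∈ HodgeStructure.cSub U := by
      intro f
      have e : (fun i => f (((u i : ℚ) : ℝ) : ℂ)) = f 1 • u := by
        ext i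
        have : ((((u i : ℚ) : ℝ) : ℂ)) = (u i : ℚ) • (1 : ℂ) := by
          rw [Rat.smul_def, mul_one]; push_cast; rfl
        rw [this, map_smul, Pi.smul_apply, smul_eq_mul, smul_eq_mul, mul_comm]
      rw [e]
      exact U.smul_mem _ hu
    have hCu := HodgeStructure.cSub_h (S := S) (fun x hx => hU x (hle hx)) Complex.I_ne_zero _ huC
    have h0 : S.form Q (fun i => (u i : ℝ)) (fun i => (u i : ℝ)) = 0 := by
      rw [← Module.forall_dual_apply_eq_zero_iff ℚ]
      intro f
      have h1 := h _ (hCu f)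
      rw [hBa] at h1
      rw [HodgeStructure.form, ← h1]
      simp only [dotProduct, map_sum]
      refine Finset.sum_congr rfl fun i _ => ?_
      have e : (bc ℂ Q *ᵥ fun i => (((u i : ℚ) : ℝ) : ℂ)) i = algebraMap ℚ ℂ ((Q *ᵥ u) i) := by
        simp only [Matrix.mulVec, dotProduct, Matrix.map_apply, eq_ratCast]
        push_cast
        rfl
      rw [e, mul_comm, ← Algebra.smul_def, map_smul, smul_eq_mul, mul_comm]
    rw [h0] at hpos
    simp at hpos
  have hnd : (B.restrict U).Nondegenerate := by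
    rw [LinearMap.BilinForm.nondegenerate_iff_ker_eq_bot, LinearMap.ker_eq_bot']
    intro u hu
    refine Subtype.ext (hinj u.1 u.2 fun u' hu' => ?_)
    exact hrefl _ _ (LinearMap.congr_fun hu (⟨u', hu'⟩ : U))
  refine ⟨B.orthogonal U, ?_, LinearMap.BilinForm.isCompl_orthogonal_of_restrict_nondegenerate hrefl hnd⟩
  intro x hx v hv u hu
  obtain ⟨μ, hμ⟩ := hmul x hx
  have h1 : B u (x *ᵥ v) = μ * B u v - B (x *ᵥ u) v := by
    rw [hBa, hBa, hBa]
    have e1 : u ⬝ᵥ (xᵀ * Q + Q * x) *ᵥ v = μ * (u ⬝ᵥ Q *ᵥ v) := by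
      rw [hμ, Matrix.smul_mulVec, dotProduct_smul, smul_eq_mul]
    rw [Matrix.add_mulVec, dotProduct_add, ← Matrix.mulVec_mulVec, ← Matrix.mulVec_mulVec] at e1
    have e2 : u ⬝ᵥ xᵀ *ᵥ (Q *ᵥ v) = (x *ᵥ u) ⬝ᵥ Q *ᵥ v := by
      rw [Matrix.dotProduct_mulVec, Matrix.vecMul_transpose]
    rw [e2] at e1
    rw [← e1]
    ring
  show B u (x *ᵥ v) = 0
  rw [h1, show B u v = 0 from hv u hu, show B (x *ᵥ u) v = 0 from hv _ (hU x hx u hu)]
  ring

/-- the class of the polarization is fixed by the isometries -/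
theorem fixes_formClass {g Q : Matrix ι ι ℚ} (hdet : Q.det ≠ 0) (hg : IsUnit g.det)
    (h : gᵀ * Q * g = Q) : Fixes g (formClass Q) := by
  have hQu : IsUnit Q.det := isUnit_iff_ne_zero.2 hdet
  have h1 : g * Q⁻¹ * gᵀ = Q⁻¹ := by
    have e1 : gᵀ * Q * g * (Q⁻¹ * gᵀ) = gᵀ := by
      rw [h, ← mul_assoc, Matrix.mul_nonsing_inv _ hQu, one_mul]
    have hgt : IsUnit (gᵀ).det := by rwa [Matrix.det_transpose]
    have e2 : Q * (g * (Q⁻¹ * gᵀ)) = 1 := by
      have := congrArg (fun M => (gᵀ)⁻¹ * M) e1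
      simp only [← mul_assoc] at this
      rw [Matrix.nonsing_inv_mul _ hgt, one_mul] at this
      simpa only [mul_assoc] using this
    have e3 := congrArg (fun M => Q⁻¹ * M) e2
    simp only [← mul_assoc] at e3
    rw [Matrix.nonsing_inv_mul _ hQu, one_mul, mul_one] at e3
    exact e3
  unfold Fixes formClass
  ext I J
  have h2 : (tpow 2 g * rankOne Q⁻¹ Q) I J = (g * Q⁻¹ * gᵀ) (I 0) (I 1) * Q (J 0) (J 1) := by
    simp only [tpow, rankOne, Matrix.mul_apply, Matrix.of_apply, Matrix.transpose_apply,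
      Fin.prod_univ_two, Finset.sum_mul]
    rw [← (finTwoArrowEquiv ι).symm.sum_comp, Fintype.sum_prod_type, Finset.sum_comm]
    refine Finset.sum_congr rfl fun a _ => Finset.sum_congr rfl fun b _ => ?_
    simp only [finTwoArrowEquiv_symm_apply, Matrix.cons_val_zero, Matrix.cons_val_one]
    ring
  have h3 : (rankOne Q⁻¹ Q * tpow 2 g) I J = Q⁻¹ (I 0) (I 1) * (gᵀ * Q * g) (J 0) (J 1) := by
    simp only [tpow, rankOne, Matrix.mul_apply, Matrix.of_apply, Matrix.transpose_apply,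
      Fin.prod_univ_two, Finset.sum_mul, Finset.mul_sum]
    rw [← (finTwoArrowEquiv ι).symm.sum_comp, Fintype.sum_prod_type, Finset.sum_comm]
    refine Finset.sum_congr rfl fun a _ => Finset.sum_congr rfl fun b _ => ?_
    simp only [finTwoArrowEquiv_symm_apply, Matrix.cons_val_zero, Matrix.cons_val_one]
    ring
  rw [h2, h3, h1, h]

variable {V : Variation ι w B Γ} (C : CycleClasses V)

theorem isTate_form [Nonempty B] : IsTate V.ρ 2 (formClass V.Q) := by
  obtain ⟨b⟩ := ‹Nonempty B›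
  refine ⟨⊤, inferInstance, fun g _ => ?_⟩
  refine fixes_formClass (HodgeStructure.det_ne_zero (V.pol b)) ?_ (V.flat g)
  exact (Matrix.isUnit_iff_isUnit_det _).1 (V.ρ g).isUnit

theorem flatAlgebraic_form (b : B) : C.FlatAlgebraic b 2 (formClass V.Q) :=
  haveI : Nonempty B := ⟨b⟩
  ⟨isTate_form, fun x hx => hx 2 _ (C.form b)⟩

theorem flatAlgebraic_isHodge {b : B} {n : ℕ} {c : Matrix (Fin n → ι) (Fin n → ι) ℚ}
    (h : C.FlatAlgebraic b n c) : (V.S b).IsHodge n c :=
  (V.S b).isHodge_of_killed fun x hx => h.2 x fun m c' hc' => hx m c' (C.isHodge b m c' hc')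

/-- The flat algebraic classes at `b` are the classes killed by their annihilator. -/
theorem flatAlgebraic_iff {b : B} {n : ℕ} {c : Matrix (Fin n → ι) (Fin n → ι) ℚ} :
    C.FlatAlgebraic b n c ↔ ∀ x ∈ ann (C.FlatAlgebraic b), Kills x c := by
  refine ⟨fun h x hx => hx n c h, fun h => ⟨isTate_of_killed V.ρ fun x hx => ?_, fun x hx => ?_⟩⟩
  · exact h x fun m c' hc' => hx m c' hc'.1
  · exact h x fun m c' hc' => hc'.2 x hx

theorem multipliers [Nonempty ι] {P : Family ι ℚ} {b : B} (hP : P 2 (formClass V.Q)) :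
    ∀ x ∈ ann P, ∃ μ : ℚ, xᵀ * V.Q + V.Q * x = μ • V.Q := by
  intro x hx
  have hdet := HodgeStructure.det_ne_zero (V.pol b)
  refine multiplier (T := V.Q⁻¹) ?_ (hx 2 _ hP)
  intro h
  have h1 := Matrix.nonsing_inv_mul V.Q (isUnit_iff_ne_zero.2 hdet)
  rw [h, zero_mul] at h1
  obtain ⟨i⟩ := ‹Nonempty ι›
  have := congrFun (congrFun h1 i) i
  simp at this

theorem nondeg [Nonempty ι] (b : B) : TraceNondeg (ann (C.FlatAlgebraic b)) :=
  traceNondeg (semisimple_of_le (V.pol b)
    (fun x hx n c hc => hx n c (flatAlgebraic_isHodge C hc))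
    (multipliers (b := b) (flatAlgebraic_form C b)))

/-- the flat weakly algebraic endomorphisms -/
theorem flatAlgebraic_one' {b : B} {z : Matrix ι ι ℚ} :
    C.FlatAlgebraic b 1 (one' z) ↔ ∀ x ∈ ann (C.FlatAlgebraic b), x * z = z * x := by
  rw [flatAlgebraic_iff]
  exact forall₂_congr fun x _ => kills_one'

theorem exists_one' (c : Matrix (Fin 1 → ι) (Fin 1 → ι) ℚ) : ∃ z, c = one' z :=
  ⟨Matrix.of fun i j => c (fun _ => i) (fun _ => j), by
    ext I J
    show c I J = c (fun _ => I 0) (fun _ => J 0)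
    congr 1 <;> (funext k; rw [Subsingleton.elim k 0])⟩

theorem centre_tens {b : B} {φ : Matrix ι ι ℚ →ₗ[ℚ] Matrix ι ι ℚ}
    (hnd : TraceNondeg (ann (C.FlatAlgebraic b))) (hφ : IsProjector (ann (C.FlatAlgebraic b)) φ) :
    C.CentreInvariant b 2 (tens φ) := by
  intro z hz
  refine kills_tens.2 fun y => ?_
  have h1 : φ (z * y - y * z) = 0 := by
    refine hφ.eq hnd (zero_mem _) fun t ht => ?_
    rw [zero_mul, trace_zero, ← neg_sub (y * z) (z * y), neg_mul, trace_neg, trace_lie, hz.1 t ht,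
      sub_self, mul_zero, trace_zero, neg_zero]
  rw [h1, hz.1 _ (hφ.1 y), sub_self]

/-- the decomposition of the larger algebra -/
theorem decompose [Nonempty ι] {b b' : B} {φ : Matrix ι ι ℚ →ₗ[ℚ] Matrix ι ι ℚ}
    (hφ : IsProjector (ann (C.FlatAlgebraic b)) φ) (hφ2 : C.FlatAlgebraic b 2 (tens φ))
    (h1 : C.VHC b b' 1) (h2 : C.WeaklyAlgebraic b' 2 (tens φ)) {x : Matrix ι ι ℚ}
    (hx : x ∈ ann (C.FlatAlgebraic b')) :
    ∃ y ∈ ann (C.FlatAlgebraic b), ∃ z, C.SkewCentral b z ∧ x = y + z := by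
  have hnd := nondeg C b
  have hdet := HodgeStructure.det_ne_zero (V.pol b)
  set P : Family ι ℚ := fun n c => C.FlatAlgebraic b n c ∧ C.FlatAlgebraic b' n c with hP
  have hle : ann (C.FlatAlgebraic b) ≤ ann P := fun x hx n c hc => hx n c hc.1
  have hle' : ann (C.FlatAlgebraic b') ≤ ann P := fun x hx n c hc => hx n c hc.2
  have hmul := multipliers (b := b) (P := P) ⟨flatAlgebraic_form C b, flatAlgebraic_form C b'⟩
  have heq : ∀ x ∈ ann P, ∀ y, φ (x * y - y * x) = x * φ y - φ y * x := fun x hx =>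
    kills_tens.1 (hx 2 _ ⟨hφ2, hφ2.1, h2⟩)
  obtain ⟨hd, hc⟩ := core hle hnd hφ heq (hle' hx)
  refine ⟨φ x, hφ.1 x, x - φ x, ⟨hc, fun y hy => ?_, ?_⟩, by rw [add_sub_cancel]⟩
  · have hy1 : C.FlatAlgebraic b 1 (one' y) := (flatAlgebraic_one' C).2 hy
    exact (kills_one'.1 (hd 1 _ ⟨hy1, hy1.1, h1 _ hy1⟩)).symm
  · set d := x - φ x with hdd
    obtain ⟨μ, hμ⟩ := hmul d hd
    have h0 : φ d = 0 := by
      rw [hdd, map_sub, hφ.apply_of_mem hnd (hφ.1 x), sub_self]
    have htr : d.trace = 0 := by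
      have := hφ.2 d 1 (one_mem_ann _)
      rw [h0, zero_mul, trace_zero, mul_one] at this
      exact this.symm
    have hQu : IsUnit V.Q.det := isUnit_iff_ne_zero.2 hdet
    have h3 : V.Q⁻¹ * dᵀ * V.Q + d = μ • 1 := by
      have := congrArg (fun M => V.Q⁻¹ * M) hμ
      simp only [mul_add, mul_smul_comm, ← mul_assoc] at this
      rw [Matrix.nonsing_inv_mul _ hQu, one_mul] at this
      exact this
    have h4 := congrArg Matrix.trace h3
    rw [trace_add, trace_mul_comm, ← mul_assoc, Matrix.mul_nonsing_inv _ hQu, one_mul,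
      trace_transpose, htr, trace_smul, trace_one, smul_eq_mul, add_zero] at h4
    have h5 : μ = 0 := by
      rcases mul_eq_zero.1 h4.symm with h | h
      · exact h
      · exact absurd h (Nat.cast_ne_zero.2 Fintype.card_ne_zero)
    rw [h5, zero_smul] at hμ
    exact eq_neg_of_add_eq_zero_left hμ

theorem wa_of_decompose {b b' : B} (h : ∀ x ∈ ann (C.FlatAlgebraic b'),
      ∃ y ∈ ann (C.FlatAlgebraic b), ∃ z, C.SkewCentral b z ∧ x = y + z) (n : ℕ) :
    C.CentralVHC b b' n := by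
  intro c hc hz
  have h1 : C.FlatAlgebraic b' n c := (flatAlgebraic_iff C).2 fun x hx => by
    obtain ⟨y, hy, z, hz', rfl⟩ := h x hx
    exact Kills.add (hy n c hc) (hz z hz')
  exact h1.2

/-- **One class.** -/
theorem main [Nonempty ι] (b : B) :
    ∃ φ, IsProjector (ann (C.FlatAlgebraic b)) φ ∧ C.FlatAlgebraic b 2 (tens φ) ∧
      C.CentreInvariant b 2 (tens φ) ∧ ∀ b',
      (V.S b').IsHodge 2 (tens φ) ∧
      [∀ n, C.CentralVHC b b' n, C.CentralVHC b b' 2,
        C.VHC b b' 1 ∧ C.WeaklyAlgebraic b' 2 (tens φ),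
        ∀ x ∈ ann (C.FlatAlgebraic b'), ∃ y ∈ ann (C.FlatAlgebraic b),
          ∃ z, C.SkewCentral b z ∧ x = y + z].TFAE ∧
      (NoTypeIV (ann (C.FlatAlgebraic b)) V.Q →
        ((∀ n, C.VHC b b' n) ↔ C.VHC b b' 1 ∧ C.WeaklyAlgebraic b' 2 (tens φ)) ∧
        ((∀ c, C.FlatAlgebraic b' 2 c → C.FlatAlgebraic b 2 c) →
          ((∀ n, C.VHC b b' n) ↔ C.dim b 2 ≤ C.dim b' 2))) := by
  have hnd := nondeg C b
  have hdet := HodgeStructure.det_ne_zero (V.pol b)
  obtain ⟨φ, hφ⟩ := exists_projector hnd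
  have hφ2 : C.FlatAlgebraic b 2 (tens φ) := (flatAlgebraic_iff C).2 fun x hx =>
    kills_tens.2 (projector_equivariant hnd hφ hx)
  have hφz := centre_tens C hnd hφ
  refine ⟨φ, hφ, hφ2, hφz, fun b' => ⟨V.fixedPart 2 _ hφ2.1 b b' (flatAlgebraic_isHodge C hφ2), ?_⟩⟩
  have t12 : (∀ n, C.CentralVHC b b' n) → C.CentralVHC b b' 2 := fun h => h 2
  have t23 : C.CentralVHC b b' 2 → C.VHC b b' 1 ∧ C.WeaklyAlgebraic b' 2 (tens φ) := by
    intro h
    refine ⟨?_, h _ hφ2 hφz⟩
    intro c hc x hx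
    obtain ⟨z, rfl⟩ := exists_one' c
    have hz := (flatAlgebraic_one' C).1 hc
    refine kills_one'.2 (kills_mulLeft.1 (h _ ((flatAlgebraic_iff C).2 fun y hy =>
      kills_mulLeft.2 (hz y hy)) (fun t ht => kills_mulLeft.2 ?_) x hx))
    exact (ht.2.1 z hz).symm
  have t34 : C.VHC b b' 1 ∧ C.WeaklyAlgebraic b' 2 (tens φ) →
      ∀ x ∈ ann (C.FlatAlgebraic b'), ∃ y ∈ ann (C.FlatAlgebraic b),
        ∃ z, C.SkewCentral b z ∧ x = y + z := fun h x hx =>
    decompose C hφ hφ2 h.1 h.2 hx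
  have t41 : (∀ x ∈ ann (C.FlatAlgebraic b'), ∃ y ∈ ann (C.FlatAlgebraic b),
        ∃ z, C.SkewCentral b z ∧ x = y + z) → ∀ n, C.CentralVHC b b' n := wa_of_decompose C
  refine ⟨?_, ?_⟩
  · tfae_have 1 → 2 := t12
    tfae_have 2 → 3 := t23
    tfae_have 3 → 4 := t34
    tfae_have 4 → 1 := t41
    tfae_finish
  · intro hIV
    -- all classes are invariant
    have hz0 : ∀ z, C.SkewCentral b z → z = 0 := by
      intro z hz
      have h1 := hIV z hz.1 hz.2.1
      rw [hz.2.2] at h1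
      have h2 : (2 : ℚ) • (V.Q * z) = 0 := by
        rw [two_smul]
        nth_rw 1 [← h1]
        rw [neg_add_cancel]
      have h3 : V.Q * z = 0 := by
        rcases smul_eq_zero.1 h2 with h | h
        · norm_num at h
        · exact h
      have h4 := congrArg (fun M => V.Q⁻¹ * M) h3
      simp only [← mul_assoc, mul_zero] at h4
      rwa [Matrix.nonsing_inv_mul _ (isUnit_iff_ne_zero.2 hdet), one_mul] at h4
    have hci : ∀ n c, C.CentreInvariant b n c := fun n c z hz => by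
      rw [hz0 z hz]
      exact Kills.zero c
    have hcv : ∀ n, C.CentralVHC b b' n ↔ C.VHC b b' n := fun n =>
      ⟨fun h c hc => h c hc (hci n c), fun h c hc _ => h c hc⟩
    have hone : (∀ n, C.VHC b b' n) ↔ C.VHC b b' 1 ∧ C.WeaklyAlgebraic b' 2 (tens φ) :=
      ⟨fun h => ⟨h 1, h 2 _ hφ2⟩, fun h n => (hcv n).1 (t41 (t34 h) n)⟩
    refine ⟨hone, fun hsp => ⟨?_, fun hd => ?_⟩⟩
    · intro h
      refine Submodule.finrank_mono (Submodule.span_mono ?_)
      intro c hc
      exact ⟨hc.1, h 2 c hc⟩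
    · refine hone.2 (t23 ((hcv 2).2 fun c hc => ?_))
      have hsub : Submodule.span ℚ {c | C.FlatAlgebraic b' 2 c} ≤
          Submodule.span ℚ {c | C.FlatAlgebraic b 2 c} := Submodule.span_mono fun c hc => hsp c hc
      have heq := Submodule.eq_of_le_of_finrank_le hsub hd
      have hc' : c ∈ Submodule.span ℚ {c | C.FlatAlgebraic b' 2 c} := by
        rw [heq]
        exact Submodule.subset_span hc
      intro x hx
      clear hc
      induction hc' using Submodule.span_induction with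
      | mem c hc => exact hc.2 x hx
      | zero =>
        show tder 2 x * 0 = 0 * tder 2 x
        rw [mul_zero, zero_mul]
      | add a b _ _ ha hb =>
        show tder 2 x * (a + b) = (a + b) * tder 2 x
        rw [mul_add, add_mul, show tder 2 x * a = a * tder 2 x from ha,
          show tder 2 x * b = b * tder 2 x from hb]
      | smul r a _ ha =>
        show tder 2 x * (r • a) = (r • a) * tder 2 x
        rw [mul_smul_comm, smul_mul_assoc, show tder 2 x * a = a * tder 2 x from ha]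

end Pool.Agent.D0H93.VH
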