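import Pool.Agent.D0H93.VH.Zero
import Pool.Agent.D0H93.VH.Fin

/-!
# Finitely many systems of Hodge classes
-/

set_option autoImplicit false
set_option linter.unusedSectionVars false
set_option linter.unusedVariables false

open Matrix

namespace Pool.Agent.D0H93.VH

open Pool.Agent.D0H93.MT Pool.Agent.D0H78.LG

variable {ι : Type} [Fintype ι] [DecidableEq ι]

section real

/-- The real span of a rational subspace. -/
def re (M : Submodule ℚ (Matrix ι ι ℚ)) : Submodule ℝ (Matrix ι ι ℝ) :=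
  Submodule.span ℝ ((fun y : Matrix ι ι ℚ => bc ℝ y) '' (M : Set (Matrix ι ι ℚ)))

lemma bc_mem_re {M : Submodule ℚ (Matrix ι ι ℚ)} {x : Matrix ι ι ℚ} (h : x ∈ M) : bc ℝ x ∈ re M :=
  Submodule.subset_span ⟨x, h, rfl⟩

lemma bcR_add {m m' : Type} (x y : Matrix m m' ℚ) : bc ℝ (x + y) = bc ℝ x + bc ℝ y := by
  ext i j; simp

lemma bcR_sub {m m' : Type} (x y : Matrix m m' ℚ) : bc ℝ (x - y) = bc ℝ x - bc ℝ y := by
  ext i j; simp

lemma co_bc (f : ℝ →ₗ[ℚ] ℚ) (x : Matrix ι ι ℚ) : co f (bc ℝ x) = f 1 • x := by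
  ext i j
  simp only [Matrix.map_apply, Matrix.smul_apply, smul_eq_mul]
  rw [Algebra.algebraMap_eq_smul_one, map_smul, smul_eq_mul, mul_comm]

lemma co_mem {M : Submodule ℚ (Matrix ι ι ℚ)} {y : Matrix ι ι ℝ} (h : y ∈ re M) :
    ∀ f : ℝ →ₗ[ℚ] ℚ, co f y ∈ M := by
  induction h using Submodule.span_induction with
  | mem y hy =>
    obtain ⟨x, hx, rfl⟩ := hy
    intro f
    change co f (bc ℝ x) ∈ M
    rw [co_bc]
    exact M.smul_mem _ hx
  | zero =>
    intro f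
    have : co f (0 : Matrix ι ι ℝ) = 0 := by ext i j; simp
    rw [this]; exact M.zero_mem
  | add a b _ _ ha hb =>
    intro f
    have : co f (a + b) = co f a + co f b := by ext i j; simp
    rw [this]; exact M.add_mem (ha f) (hb f)
  | smul r y _ hy =>
    intro f
    have : co f (r • y) = co (f ∘ₗ LinearMap.mulLeft ℚ r) y := by ext i j; simp
    rw [this]; exact hy _

lemma mem_re {M : Submodule ℚ (Matrix ι ι ℚ)} {y : Matrix ι ι ℝ} :
    y ∈ re M ↔ ∀ f : ℝ →ₗ[ℚ] ℚ, co f y ∈ M := ⟨co_mem, fun h => mem_span_of_co M h⟩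

lemma re_bc {M : Submodule ℚ (Matrix ι ι ℚ)} {x : Matrix ι ι ℚ} : bc ℝ x ∈ re M ↔ x ∈ M := by
  refine ⟨fun h => ?_, bc_mem_re⟩
  have h1 : ∃ f : ℝ →ₗ[ℚ] ℚ, f 1 ≠ 0 := by
    by_contra hne
    push Not at hne
    exact one_ne_zero ((Module.forall_dual_apply_eq_zero_iff ℚ (1 : ℝ)).1 hne)
  obtain ⟨f, hf⟩ := h1
  have h2 := mem_re.1 h f
  rw [co_bc] at h2
  have h3 := M.smul_mem (f 1)⁻¹ h2
  rwa [smul_smul, inv_mul_cancel₀ hf, one_smul] at h3

lemma mem_re_ann {P : Family ι ℚ} {y : Matrix ι ι ℝ} : y ∈ re (ann P) ↔ y ∈ ann (ext ℝ P) :=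
  mem_re.trans mem_ann_ext.symm

lemma re_mono {M M' : Submodule ℚ (Matrix ι ι ℚ)} (h : M ≤ M') : re M ≤ re M' :=
  Submodule.span_mono (Set.image_mono h)

/-- A linear condition may be verified on rational matrices. -/
lemma re_le {M : Submodule ℚ (Matrix ι ι ℚ)} {N : Submodule ℝ (Matrix ι ι ℝ)}
    (h : ∀ x ∈ M, bc ℝ x ∈ N) : re M ≤ N := by
  refine Submodule.span_le.2 ?_
  rintro _ ⟨x, hx, rfl⟩
  exact h x hx

end real

variable {w : ℤ} {S : HodgeStructure ι w} {Q : Matrix ι ι ℚ} {F P : Family ι ℚ}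

/-- The skew central elements. -/
def skewC (F : Family ι ℚ) (Q : Matrix ι ι ℚ) : Submodule ℚ (Matrix ι ι ℚ) where
  carrier := {z | SkewCentre F Q z}
  add_mem' := fun {a b} ha hb => ⟨fun x hx => by rw [mul_add, add_mul, ha.1 x hx, hb.1 x hx],
    fun y hy => by rw [mul_add, add_mul, ha.2.1 y hy, hb.2.1 y hy], by
      rw [transpose_add, add_mul, mul_add, ha.2.2, hb.2.2]; abel⟩
  zero_mem' := ⟨fun x _ => by rw [mul_zero, zero_mul], fun y _ => by rw [mul_zero, zero_mul], by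
    rw [transpose_zero, zero_mul, mul_zero, neg_zero]⟩
  smul_mem' := fun r a ha => ⟨fun x hx => by rw [mul_smul_comm, smul_mul_assoc, ha.1 x hx],
    fun y hy => by rw [mul_smul_comm, smul_mul_assoc, ha.2.1 y hy], by
      rw [transpose_smul, smul_mul_assoc, mul_smul_comm, ha.2.2, smul_neg]⟩

lemma mem_skewC {z : Matrix ι ι ℚ} : z ∈ skewC F Q ↔ SkewCentre F Q z := Iff.rfl

/-- The family `P` is closed: a class which is killed by the annihilator of `P` belongs to `P`. -/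
def Closed (P : Family ι ℚ) : Prop :=
  ∀ n (c : Matrix (Fin n → ι) (Fin n → ι) ℚ), (∀ x ∈ ann P, Kills x c) → P n c

/-- The systems of classes between the polarization and endomorphisms in `F` and all of `F`. -/
structure Between (F : Family ι ℚ) (Q : Matrix ι ι ℚ) (P : Family ι ℚ) : Prop where
  closed : Closed P
  le : ∀ n c, P n c → F n c
  form : P 2 (formClass Q)
  one : ∀ c : Matrix (Fin 1 → ι) (Fin 1 → ι) ℚ, F 1 c → P 1 c

section structure_

variable (hF : Closed F) (hP : Between F Q P)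
include hF hP

lemma ann_mono' : ann F ≤ ann P := fun x hx n c hc => hx n c (hP.le n c hc)

lemma comm_ann {x y : Matrix ι ι ℚ} (hx : x ∈ ann P) (hy : ∀ h ∈ ann F, h * y = y * h) :
    x * y = y * x :=
  kills_one'.1 (hx 1 _ (hP.one _ (hF _ _ fun h hh => kills_one'.2 (hy h hh))))

/-- the algebra, enlarged by the skew centre -/
lemma comm_big {x y : Matrix ι ι ℚ} (hx : x ∈ ann P ⊔ skewC F Q)
    (hy : ∀ h ∈ ann F, h * y = y * h) : x * y = y * x := by
  obtain ⟨a, ha, z, hz, rfl⟩ := Submodule.mem_sup.1 hx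
  rw [add_mul, mul_add, comm_ann hF hP ha hy, (hz.2.1 y hy)]

lemma lie_big {x y : Matrix ι ι ℚ} (hx : x ∈ ann P ⊔ skewC F Q) (hy : y ∈ ann P ⊔ skewC F Q) :
    x * y - y * x ∈ ann P ⊔ skewC F Q := by
  obtain ⟨a, ha, z, hz, rfl⟩ := Submodule.mem_sup.1 hx
  obtain ⟨b, hb, u, hu, rfl⟩ := Submodule.mem_sup.1 hy
  have h1 : a * u = u * a := comm_ann hF hP ha hu.1
  have h2 : b * z = z * b := comm_ann hF hP hb hz.1
  have h3 : z * u = u * z := hu.2.1 z hz.1
  have h4 : (a + z) * (b + u) - (b + u) * (a + z) = a * b - b * a := by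
    rw [add_mul, add_mul, mul_add, mul_add, mul_add, mul_add, h1, h2, h3]
    abel
  rw [h4]
  exact Submodule.mem_sup_left (ann_lie ha hb)

end structure_

section positive

variable (hQ : S.IsPolarization Q)

/-- the inverse of the Weil operator -/
noncomputable def hR' (S : HodgeStructure ι w) : Matrix ι ι ℝ := (-1 : ℝ) ^ w • hR S

lemma hR_mul : hR S * hR' S = 1 := by
  rw [hR', mul_smul_comm, hR_sq, smul_smul, sign_sq, one_smul]

lemma hR_mul' : hR' S * hR S = 1 := by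
  rw [hR', smul_mul_assoc, hR_sq, smul_smul, sign_sq, one_smul]

lemma fixes_hR {n : ℕ} {c : Matrix (Fin n → ι) (Fin n → ι) ℚ} (h : S.IsHodge n c) :
    Fixes (hR S) (bc ℝ c) := by
  apply toC_inj
  rw [toC_mul, toC_mul, toC_tpow, toC_hR, toC_bc]
  exact h _ Complex.I_ne_zero

lemma tpow_one' (g : Matrix ι ι ℝ) : tpow 1 g = one' g := by
  ext I J
  simp [tpow, one']

lemma fixes_one' {g z : Matrix ι ι ℝ} (h : Fixes g (one' z)) : g * z = z * g := by
  unfold Fixes at h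
  rw [tpow_one', one'_mul, one'_mul] at h
  exact one'_injective h

variable (hFH : ∀ n c, F n c → S.IsHodge n c) (hF : Closed F)
include hQ hFH hF

/-- The real algebra is stable under the conjugation by the Weil operator. -/
lemma conj_big (hP : Between F Q P) {x : Matrix ι ι ℝ} (hx : x ∈ re (ann P ⊔ skewC F Q)) :
    hR S * x * hR' S ∈ re (ann P ⊔ skewC F Q) := by
  let f : Matrix ι ι ℝ →ₗ[ℝ] Matrix ι ι ℝ :=
    LinearMap.mulRight ℝ (hR' S) ∘ₗ LinearMap.mulLeft ℝ (hR S)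
  have h1 : re (ann P ⊔ skewC F Q) ≤ (re (ann P ⊔ skewC F Q)).comap f := by
    refine re_le fun x hx => ?_
    obtain ⟨a, ha, z, hz, rfl⟩ := Submodule.mem_sup.1 hx
    change hR S * bc ℝ (a + z) * hR' S ∈ re (ann P ⊔ skewC F Q)
    have e : bc ℝ (a + z) = bc ℝ a + bc ℝ z := by ext i j; simp
    have hz1 : hR S * bc ℝ z = bc ℝ z * hR S := by
      have h2 : F 1 (one' z) := hF _ _ fun h hh => kills_one'.2 (hz.1 h hh)
      exact fixes_one' (fixes_hR (hFH _ _ h2))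
    rw [e, mul_add, add_mul, hz1, mul_assoc (bc ℝ z), hR_mul, mul_one]
    refine Submodule.add_mem _ ?_ (bc_mem_re (Submodule.mem_sup_right hz))
    refine re_mono le_sup_left (mem_re_ann.2 ?_)
    refine conj_mem_ann hR_mul hR_mul' ?_ (bc_mem_ann_ext.2 ha)
    rintro n _ ⟨c, hc, rfl⟩
    exact fixes_hR (hFH n c (hP.le n c hc))
  exact h1 hx

/-- The real algebra is stable under the involution of the polarization. -/
lemma adj_big [Nonempty ι] (hP : Between F Q P) {x : Matrix ι ι ℝ}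
    (hx : x ∈ re (ann P ⊔ skewC F Q)) : bc ℝ Q⁻¹ * xᵀ * bc ℝ Q ∈ re (ann P ⊔ skewC F Q) := by
  have hdet : IsUnit Q.det := isUnit_iff_ne_zero.2 (HodgeStructure.det_ne_zero hQ)
  let f : Matrix ι ι ℝ →ₗ[ℝ] Matrix ι ι ℝ :=
    LinearMap.mulRight ℝ (bc ℝ Q) ∘ₗ LinearMap.mulLeft ℝ (bc ℝ Q⁻¹) ∘ₗ
      (Matrix.transposeLinearEquiv ι ι ℝ ℝ).toLinearMap
  have h1 : re (ann P ⊔ skewC F Q) ≤ (re (ann P ⊔ skewC F Q)).comap f := by
    refine re_le fun x hx => ?_
    obtain ⟨a, ha, z, hz, rfl⟩ := Submodule.mem_sup.1 hx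
    change bc ℝ Q⁻¹ * (bc ℝ (a + z))ᵀ * bc ℝ Q ∈ re (ann P ⊔ skewC F Q)
    have e : bc ℝ Q⁻¹ * (bc ℝ (a + z))ᵀ * bc ℝ Q = bc ℝ (Q⁻¹ * (a + z)ᵀ * Q) := by
      rw [bc_mul, bc_mul]
      rfl
    rw [e]
    refine bc_mem_re ?_
    have hinv : Q⁻¹ ≠ 0 := by
      intro h
      have h1 := Matrix.nonsing_inv_mul Q hdet
      rw [h, zero_mul] at h1
      obtain ⟨i⟩ := ‹Nonempty ι›
      have := congrFun (congrFun h1 i) i
      simp at this
    obtain ⟨μ, hμ⟩ := multiplier hinv (ha 2 _ hP.form)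
    have h2 : Q⁻¹ * (a + z)ᵀ * Q = (μ • 1 - a) + -z := by
      have h3 : (a + z)ᵀ * Q = Q * ((μ • 1 - a) + -z) := by
        rw [transpose_add, add_mul, hz.2.2, mul_add, mul_sub, mul_smul_comm, mul_one, ← hμ, mul_neg]
        abel
      rw [mul_assoc, h3, ← mul_assoc, Matrix.nonsing_inv_mul _ hdet, one_mul]
    rw [h2]
    exact Submodule.add_mem _
      (Submodule.mem_sup_left (sub_mem (scalar_mem_ann P μ) ha))
      (Submodule.neg_mem _ (Submodule.mem_sup_right hz))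
  exact h1 hx

end positive

/-- The orthogonal projector onto a real Lie algebra which is stable under transposition. -/
lemma exists_good {H N L : Submodule ℝ (Matrix ι ι ℝ)} (htr : ∀ x ∈ L, xᵀ ∈ L)
    (hlie : ∀ x ∈ L, ∀ y ∈ L, x * y - y * x ∈ L) (hH : H ≤ L) (hN : L ≤ N)
    (hZ : ∀ z ∈ N, (∀ h ∈ H, h * z = z * h) → z ∈ L) :
    ∃ φ : Matrix ι ι ℝ →ₗ[ℝ] Matrix ι ι ℝ, Good H N φ ∧ ∀ x, x ∈ L ↔ φ x = x := by
  have hnd : TraceNondeg L := by
    intro x hx h
    have h1 := h xᵀ (htr x hx)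
    have h2 : (xᵀᵀ * xᵀ).trace = 0 := by rwa [transpose_transpose]
    have h3 := eq_zero_of_trace h2
    rw [← transpose_transpose x, h3, transpose_zero]
  obtain ⟨φ, hφ⟩ := exists_projector hnd
  have hfix : ∀ x ∈ L, φ x = x := fun x hx => hφ.apply_of_mem hnd hx
  have htp : ∀ x, φ xᵀ = (φ x)ᵀ := fun x => by
    refine hφ.eq hnd (htr _ (hφ.1 x)) fun z hz => ?_
    have e : ∀ a : Matrix ι ι ℝ, (aᵀ * z).trace = (a * zᵀ).trace := fun a => by
      rw [← trace_transpose, transpose_mul, transpose_transpose, trace_mul_comm]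
    rw [e, e, hφ.2 x _ (htr z hz)]
  refine ⟨φ, ⟨fun x => hfix _ (hφ.1 x), fun x y => ?_, htp, fun x y => ?_, fun h hh =>
    hfix _ (hH hh), fun x => hN (hφ.1 x), fun z hz hc => hfix _ (hZ z hz hc)⟩,
    fun x => ⟨fun hx => hfix x hx, fun hx => hx ▸ hφ.1 x⟩⟩
  · have e1 : ((φ x)ᵀ * y).trace = (φ y * (φ x)ᵀ).trace := by
      rw [trace_mul_comm, hφ.2 y _ (htr _ (hφ.1 x))]
    have e2 : (xᵀ * φ y).trace = (φ y * (φ x)ᵀ).trace := by
      rw [← htp, trace_mul_comm (φ y), hφ.2 xᵀ _ (hφ.1 y)]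
    rw [e1, e2]
  · exact hfix _ (hlie _ (hφ.1 x) _ (hφ.1 y))

section main

variable [Nonempty ι] (hQ : S.IsPolarization Q) (hFH : ∀ n c, F n c → S.IsHodge n c) (hF : Closed F)
include hQ hFH hF

/-- **Finitely many algebras.** -/
theorem finite_big : {L : Submodule ℚ (Matrix ι ι ℚ) | ∃ P, Between F Q P ∧
    L = ann P ⊔ skewC F Q}.Finite := by
  have hdet : IsUnit Q.det := isUnit_iff_ne_zero.2 (HodgeStructure.det_ne_zero hQ)
  obtain ⟨B, hB, hG⟩ := exists_factor hQ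
  have hBB : B * B⁻¹ = 1 := Matrix.mul_nonsing_inv _ hB
  have hBB' : B⁻¹ * B = 1 := Matrix.nonsing_inv_mul _ hB
  -- conjugation by `B`
  let κ : Matrix ι ι ℝ →ₗ[ℝ] Matrix ι ι ℝ := LinearMap.mulRight ℝ B ∘ₗ LinearMap.mulLeft ℝ B⁻¹
  have hκ : ∀ y, κ y = B⁻¹ * y * B := fun y => rfl
  have hκmul : ∀ x y, κ (x * y) = κ x * κ y := fun x y => by
    rw [hκ, hκ, hκ]
    calc B⁻¹ * (x * y) * B = B⁻¹ * x * 1 * y * B := by rw [mul_one]; simp only [mul_assoc]
      _ = _ := by rw [← hBB]; simp only [mul_assoc]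
  have hκinj : ∀ x y, κ x = κ y → x = y := fun x y h => by
    rw [hκ, hκ] at h
    have := congrArg (fun M => B * M * B⁻¹) h
    calc x = (B * B⁻¹) * x * (B * B⁻¹) := by rw [hBB, one_mul, mul_one]
      _ = B * (B⁻¹ * x * B) * B⁻¹ := by simp only [mul_assoc]
      _ = B * (B⁻¹ * y * B) * B⁻¹ := by rw [h]
      _ = (B * B⁻¹) * y * (B * B⁻¹) := by simp only [mul_assoc]
      _ = y := by rw [hBB, one_mul, mul_one]
  have hκsurj : ∀ x, κ (B * x * B⁻¹) = x := fun x => by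
    rw [hκ]
    calc B⁻¹ * (B * x * B⁻¹) * B = (B⁻¹ * B) * x * (B⁻¹ * B) := by simp only [mul_assoc]
      _ = x := by rw [hBB', one_mul, mul_one]
  -- the large space
  let N₀ : Submodule ℝ (Matrix ι ι ℝ) :=
    { carrier := {x | (∀ e : Matrix ι ι ℚ, (∀ h ∈ ann F, h * e = e * h) → x * bc ℝ e = bc ℝ e * x) ∧
        ∃ μ : ℝ, xᵀ * bc ℝ Q + bc ℝ Q * x = μ • bc ℝ Q}
      add_mem' := fun {a b} ha hb => ⟨fun e he => by rw [add_mul, mul_add, ha.1 e he, hb.1 e he], by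
        obtain ⟨μ, hμ⟩ := ha.2
        obtain ⟨ν, hν⟩ := hb.2
        refine ⟨μ + ν, ?_⟩
        rw [transpose_add, add_mul, mul_add, add_smul, ← hμ, ← hν]
        abel⟩
      zero_mem' := ⟨fun e he => by rw [zero_mul, mul_zero], 0, by simp⟩
      smul_mem' := fun r a ha => ⟨fun e he => by rw [smul_mul_assoc, mul_smul_comm, ha.1 e he], by
        obtain ⟨μ, hμ⟩ := ha.2
        refine ⟨r * μ, ?_⟩
        rw [transpose_smul, smul_mul_assoc, mul_smul_comm, ← smul_add, hμ, smul_smul]⟩ }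
  let H : Submodule ℝ (Matrix ι ι ℝ) := (re (ann F)).comap κ
  let N : Submodule ℝ (Matrix ι ι ℝ) := N₀.comap κ
  -- the real commutant of `H`
  have hcomm : ∀ y : Matrix ι ι ℝ, (∀ h ∈ H, h * y = y * h) →
      ∀ h ∈ ann F, bc ℝ h * κ y = κ y * bc ℝ h := by
    intro y hy h hh
    have h1 := hy (B * bc ℝ h * B⁻¹) (by
      change κ _ ∈ re (ann F)
      rw [hκsurj]
      exact bc_mem_re hh)
    have h2 := congrArg κ h1
    rwa [hκmul (B * bc ℝ h * B⁻¹) y, hκmul y, hκsurj] at h2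
  have hco : ∀ {y : Matrix ι ι ℝ}, (∀ h ∈ ann F, bc ℝ h * y = y * bc ℝ h) →
      ∀ f : ℝ →ₗ[ℚ] ℚ, ∀ h ∈ ann F, h * co f y = co f y * h := by
    intro y hy f h hh
    rw [← co_bc_mul, ← co_mul_bc, hy h hh]
  have hNE : ∀ x ∈ N, ∀ y, (∀ h ∈ H, h * y = y * h) → x * y = y * x := by
    intro x hx y hy
    refine hκinj _ _ ?_
    rw [hκmul, hκmul]
    have h1 := hco (hcomm y hy)
    refine ext_of_co (K := ℚ) fun f => ?_
    -- expand `κ y` over the rational commutant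
    have h2 : κ y ∈ Submodule.span ℝ ((fun e : Matrix ι ι ℚ => bc ℝ e) ''
        (({ carrier := {e | ∀ h ∈ ann F, h * e = e * h}
            add_mem' := fun {a b} ha hb h hh => by rw [mul_add, add_mul, ha h hh, hb h hh]
            zero_mem' := fun h hh => by rw [mul_zero, zero_mul]
            smul_mem' := fun r a ha h hh => by rw [mul_smul_comm, smul_mul_assoc, ha h hh] } :
          Submodule ℚ (Matrix ι ι ℚ)) : Set (Matrix ι ι ℚ))) :=
      mem_span_of_co _ h1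
    have h3 : κ x * κ y = κ y * κ x := by
      generalize κ y = y' at h2
      induction h2 using Submodule.span_induction with
      | mem z hz =>
        obtain ⟨e, he, rfl⟩ := hz
        exact hx.1 e he
      | zero => rw [mul_zero, zero_mul]
      | add a b _ _ ha hb => rw [mul_add, add_mul, ha, hb]
      | smul r a _ ha => rw [mul_smul_comm, smul_mul_assoc, ha]
    rw [h3]
  -- the projector which belongs to a system
  have key : ∀ P, Between F Q P → ∃ φ : Matrix ι ι ℝ →ₗ[ℝ] Matrix ι ι ℝ, Good H N φ ∧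
      ∀ x : Matrix ι ι ℚ, x ∈ ann P ⊔ skewC F Q ↔ φ (B * bc ℝ x * B⁻¹) = B * bc ℝ x * B⁻¹ := by
    intro P hP
    suffices hsuf : ∃ φ : Matrix ι ι ℝ →ₗ[ℝ] Matrix ι ι ℝ, Good H N φ ∧
        ∀ x, x ∈ (re (ann P ⊔ skewC F Q)).comap κ ↔ φ x = x by
      obtain ⟨φ, h1, h2⟩ := hsuf
      refine ⟨φ, h1, fun x => ?_⟩
      rw [← h2, Submodule.mem_comap, hκsurj, re_bc]
    refine exists_good ?_ ?_ ?_ ?_ ?_
    · -- transposition
      intro y hy
      rw [Submodule.mem_comap] at hy ⊢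
      have e1 : κ yᵀ = bc ℝ Q⁻¹ * (hR S * κ y * hR' S)ᵀ * bc ℝ Q := by
        have g1 : gram S Q = Bᵀ * B := hG
        have e2 : Bᵀ⁻¹ * Bᵀ = 1 := by
          rw [← transpose_nonsing_inv, ← transpose_mul, hBB, transpose_one]
        have e3 : (κ y)ᵀ = Bᵀ * yᵀ * Bᵀ⁻¹ := by
          rw [hκ, transpose_mul, transpose_mul, transpose_nonsing_inv, ← mul_assoc]
        have e4 : (hR S * κ y * hR' S)ᵀ = (hR' S)ᵀ * (κ y)ᵀ * (hR S)ᵀ := by
          rw [transpose_mul, transpose_mul, ← mul_assoc]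
        have e5 : (hR S)ᵀ * bc ℝ Q = Bᵀ * B := g1
        -- the inverse of the Gram matrix
        have e6 : bc ℝ Q⁻¹ * (hR' S)ᵀ * (Bᵀ * B) = 1 := by
          rw [← e5]
          calc bc ℝ Q⁻¹ * (hR' S)ᵀ * ((hR S)ᵀ * bc ℝ Q)
              = bc ℝ Q⁻¹ * ((hR' S)ᵀ * (hR S)ᵀ) * bc ℝ Q := by simp only [mul_assoc]
            _ = 1 := by
              rw [← transpose_mul, hR_mul, transpose_one, mul_one, ← bc_mul,
                Matrix.nonsing_inv_mul _ hdet]
              ext i j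
              by_cases h : i = j
              · subst h; simp
              · simp [Matrix.one_apply_ne h]
        have e7 : bc ℝ Q⁻¹ * (hR' S)ᵀ * Bᵀ = B⁻¹ := by
          calc bc ℝ Q⁻¹ * (hR' S)ᵀ * Bᵀ = bc ℝ Q⁻¹ * (hR' S)ᵀ * (Bᵀ * B) * B⁻¹ := by
                rw [mul_assoc _ (Bᵀ * B), mul_assoc Bᵀ, hBB, mul_one]
            _ = B⁻¹ := by rw [e6, one_mul]
        rw [e4, e3, hκ]
        calc B⁻¹ * yᵀ * B = (bc ℝ Q⁻¹ * (hR' S)ᵀ * Bᵀ) * yᵀ * B := by rw [e7]
          _ = bc ℝ Q⁻¹ * (hR' S)ᵀ * Bᵀ * yᵀ * (Bᵀ⁻¹ * Bᵀ) * B := by rw [e2, mul_one]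
          _ = bc ℝ Q⁻¹ * (hR' S)ᵀ * Bᵀ * yᵀ * Bᵀ⁻¹ * (Bᵀ * B) := by simp only [mul_assoc]
          _ = bc ℝ Q⁻¹ * (hR' S)ᵀ * Bᵀ * yᵀ * Bᵀ⁻¹ * ((hR S)ᵀ * bc ℝ Q) := by rw [e5]
          _ = _ := by simp only [mul_assoc]
      rw [e1]
      exact adj_big hQ hFH hF hP (conj_big hQ hFH hF hP hy)
    · -- brackets
      intro x hx y hy
      rw [Submodule.mem_comap] at hx hy ⊢
      rw [map_sub, hκmul, hκmul]
      generalize κ x = x at hx
      generalize κ y = y at hy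
      have t1 : ∀ b ∈ ann P ⊔ skewC F Q, ∀ x ∈ re (ann P ⊔ skewC F Q),
          x * bc ℝ b - bc ℝ b * x ∈ re (ann P ⊔ skewC F Q) := by
        intro b hb x hx
        let f : Matrix ι ι ℝ →ₗ[ℝ] Matrix ι ι ℝ :=
          LinearMap.mulRight ℝ (bc ℝ b) - LinearMap.mulLeft ℝ (bc ℝ b)
        have : re (ann P ⊔ skewC F Q) ≤ (re (ann P ⊔ skewC F Q)).comap f := by
          refine re_le fun a ha => ?_
          change bc ℝ a * bc ℝ b - bc ℝ b * bc ℝ a ∈ re (ann P ⊔ skewC F Q)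
          have e : bc ℝ a * bc ℝ b - bc ℝ b * bc ℝ a = bc ℝ (a * b - b * a) := by
            rw [bcR_sub, bc_mul, bc_mul]
          rw [e]
          exact bc_mem_re (lie_big hF hP ha hb)
        exact this hx
      let g : Matrix ι ι ℝ →ₗ[ℝ] Matrix ι ι ℝ := LinearMap.mulLeft ℝ x - LinearMap.mulRight ℝ x
      have : re (ann P ⊔ skewC F Q) ≤ (re (ann P ⊔ skewC F Q)).comap g :=
        re_le fun b hb => t1 b hb x hx
      exact this hy
    · exact Submodule.comap_mono (re_mono (le_sup_of_le_left (ann_mono' hF hP)))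
    · -- contained in `N`
      refine Submodule.comap_mono (re_le fun x hx => ⟨fun e he => ?_, ?_⟩)
      · rw [← bc_mul, ← bc_mul, comm_big hF hP hx he]
      · obtain ⟨a, ha, z, hz, rfl⟩ := Submodule.mem_sup.1 hx
        have hinv : Q⁻¹ ≠ 0 := by
          intro h
          have h1 := Matrix.nonsing_inv_mul Q hdet
          rw [h, zero_mul] at h1
          obtain ⟨i⟩ := ‹Nonempty ι›
          have := congrFun (congrFun h1 i) i
          simp at this
        obtain ⟨μ, hμ⟩ := multiplier hinv (ha 2 _ hP.form)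
        refine ⟨(μ : ℝ), ?_⟩
        have h2 : (a + z)ᵀ * Q + Q * (a + z) = μ • Q := by
          rw [transpose_add, add_mul, mul_add, hz.2.2, ← hμ]
          abel
        have h3 : (bc ℝ (a + z))ᵀ * bc ℝ Q + bc ℝ Q * bc ℝ (a + z) =
            bc ℝ ((a + z)ᵀ * Q + Q * (a + z)) := by
          rw [bcR_add ((a + z)ᵀ * Q), bc_mul, bc_mul]
          rfl
        rw [h3, h2]
        ext i j
        simp
    · -- the centre
      intro z hz hc
      rw [Submodule.mem_comap]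
      obtain ⟨hz1, μ, hμ⟩ := hz
      have h1 := hcomm z hc
      have e1 : κ z = (κ z - (μ / 2) • 1) + (μ / 2) • (1 : Matrix ι ι ℝ) := by
        rw [sub_add_cancel]
      rw [e1]
      refine Submodule.add_mem _ (re_mono le_sup_right (mem_re.2 fun f => ?_)) ?_
      · refine ⟨hco (fun h hh => ?_) f, fun e he => ?_, ?_⟩
        · rw [mul_sub, sub_mul, h1 h hh, mul_smul_comm, smul_mul_assoc, mul_one, one_mul]
        · rw [← co_bc_mul, ← co_mul_bc, sub_mul, mul_sub, hz1 e he, mul_smul_comm, smul_mul_assoc,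
            mul_one, one_mul]
        · have h5 : (κ z - (μ / 2) • (1 : Matrix ι ι ℝ))ᵀ * bc ℝ Q =
              -(bc ℝ Q * (κ z - (μ / 2) • (1 : Matrix ι ι ℝ))) := by
            rw [transpose_sub, transpose_smul, transpose_one, sub_mul, mul_sub, smul_mul_assoc,
              mul_smul_comm, one_mul, mul_one, eq_neg_iff_add_eq_zero]
            have : (κ z)ᵀ * bc ℝ Q - (μ / 2) • bc ℝ Q + (bc ℝ Q * κ z - (μ / 2) • bc ℝ Q) =
                ((κ z)ᵀ * bc ℝ Q + bc ℝ Q * κ z) - ((μ / 2) • bc ℝ Q + (μ / 2) • bc ℝ Q) := by abel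
            rw [this, hμ, ← add_smul, add_halves, sub_self]
          have h6 : (co f (κ z - (μ / 2) • (1 : Matrix ι ι ℝ)))ᵀ =
              co f (κ z - (μ / 2) • (1 : Matrix ι ι ℝ))ᵀ := rfl
          rw [h6, ← co_mul_bc, ← co_bc_mul, h5]
          ext i j
          simp
      · refine Submodule.smul_mem _ _ ?_
        have e2 : (1 : Matrix ι ι ℝ) = bc ℝ (1 : Matrix ι ι ℚ) := by
          ext i j
          by_cases h : i = j
          · subst h; simp
          · simp [Matrix.one_apply_ne h]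
        rw [e2]
        exact bc_mem_re (Submodule.mem_sup_left (one_mem_ann P))
  -- the conclusion
  have hfin := finite_good hNE
  let G : (Matrix ι ι ℝ →ₗ[ℝ] Matrix ι ι ℝ) → Set (Matrix ι ι ℚ) := fun φ =>
    {x | φ (B * bc ℝ x * B⁻¹) = B * bc ℝ x * B⁻¹}
  refine Set.Finite.of_finite_image (f := fun L : Submodule ℚ (Matrix ι ι ℚ) =>
    (L : Set (Matrix ι ι ℚ))) ((hfin.image G).subset ?_) SetLike.coe_injective.injOn
  rintro _ ⟨L, ⟨P, hP, rfl⟩, rfl⟩
  obtain ⟨φ, h1, h2⟩ := key P hP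
  refine ⟨φ, h1, ?_⟩
  ext x
  exact (h2 x).symm

end main

end Pool.Agent.D0H93.VH
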