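import Pool.Agent.D0H78.LG.Pol
import Pool.Agent.D0H78.LG.Sub
import Pool.Agent.D0H93.VH.Main

/-!
# The zero-one law for flat algebraic classes
-/

set_option autoImplicit false
set_option linter.unusedSectionVars false
set_option linter.unusedVariables false

open Matrix Filter Topology

namespace Pool.Agent.D0H93.VH

open Pool.Agent.D0H93.MT Pool.Agent.D0H78.LG

variable {ι : Type} [Fintype ι] [DecidableEq ι] {w : ℤ} {B Γ : Type} [Group Γ]

/-- The endomorphisms of the tensor powers which are flat on a finite covering of the base and which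
are Hodge classes on the members. -/
def FlatHodge (V : Variation ι w B Γ) : Family ι ℚ :=
  fun n c => IsTate V.ρ n c ∧ ∀ b, (V.S b).IsHodge n c

variable {V : Variation ι w B Γ}

/-- The flat Hodge classes which are weakly algebraic on all members in `T`. -/
def CycleClasses.On (C : CycleClasses V) (T : Set B) : Family ι ℚ :=
  fun n c => FlatHodge V n c ∧ ∀ b ∈ T, C.WeaklyAlgebraic b n c

/-- The number of linearly independent flat Hodge classes which are weakly algebraic on all members in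
`T`, among the endomorphisms of the `n`-th tensor power. -/
noncomputable def CycleClasses.count (C : CycleClasses V) (T : Set B) (n : ℕ) : ℕ :=
  Set.finrank ℚ {c | C.On T n c}

/-- The variational Hodge conjecture from the members in `T` to the members in `T'`, for the `n`-th
tensor power. -/
def CycleClasses.VHCOn (C : CycleClasses V) (T T' : Set B) (n : ℕ) : Prop :=
  ∀ c, C.On T n c → C.On T' n c

/-- `z` is skew for the involution of `Q`, and it is in the centre of the commutant of `ann P`. -/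
def SkewCentre (P : Family ι ℚ) (Q z : Matrix ι ι ℚ) : Prop :=
  (∀ x ∈ ann P, x * z = z * x) ∧
    (∀ y, (∀ x ∈ ann P, x * y = y * x) → y * z = z * y) ∧ zᵀ * Q = - (Q * z)

/-- The place from which on one inequality decides. -/
def place (d q K : ℕ) : ℕ := ((K + 2) * (K * q) * (d ^ 2) ^ (K * q + 1)) ^ 2

variable (C : CycleClasses V)

theorem on_anti {T T' : Set B} (h : T ⊆ T') {n : ℕ} {c : Matrix (Fin n → ι) (Fin n → ι) ℚ}
    (hc : C.On T' n c) : C.On T n c := ⟨hc.1, fun b hb => hc.2 b (h hb)⟩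

theorem on_union {T T' : Set B} {n : ℕ} {c : Matrix (Fin n → ι) (Fin n → ι) ℚ} :
    C.On (T ∪ T') n c ↔ C.On T n c ∧ C.On T' n c :=
  ⟨fun h => ⟨on_anti C Set.subset_union_left h, on_anti C Set.subset_union_right h⟩,
    fun h => ⟨h.1.1, fun b hb => hb.elim (h.1.2 b) (h.2.2 b)⟩⟩

theorem on_singleton {b : B} {n : ℕ} {c : Matrix (Fin n → ι) (Fin n → ι) ℚ} :
    C.On {b} n c ↔ C.FlatAlgebraic b n c :=
  ⟨fun h => ⟨h.1.1, h.2 b rfl⟩, fun h => ⟨⟨h.1, fun b' => V.fixedPart n c h.1 b b'
    (flatAlgebraic_isHodge C h)⟩, fun b' hb' => by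
      rw [Set.mem_singleton_iff] at hb'
      rw [hb']
      exact h.2⟩⟩

theorem on_form (T : Set B) [Nonempty B] : C.On T 2 (formClass V.Q) :=
  ⟨⟨isTate_form, fun b => C.isHodge b 2 _ (C.form b)⟩, fun b _ x hx => hx 2 _ (C.form b)⟩

/-- The double annihilator theorem. -/
theorem on_iff {T : Set B} {n : ℕ} {c : Matrix (Fin n → ι) (Fin n → ι) ℚ} :
    C.On T n c ↔ ∀ x ∈ ann (C.On T), Kills x c := by
  refine ⟨fun h x hx => hx n c h, fun h => ⟨⟨isTate_of_killed V.ρ fun x hx => ?_, fun b =>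
    (V.S b).isHodge_of_killed fun x hx => ?_⟩, fun b hb x hx => ?_⟩⟩
  · exact h x fun m c' hc' => hx m c' hc'.1.1
  · exact h x fun m c' hc' => hx m c' (hc'.1.2 b)
  · exact h x fun m c' hc' => hc'.2 b hb x hx

theorem mem_kil_on {T : Set B} {n : ℕ} {c : Matrix (Fin n → ι) (Fin n → ι) ℚ} :
    C.On T n c ↔ c ∈ kil (ann (C.On T)) n := on_iff C

theorem count_eq (T : Set B) (n : ℕ) : C.count T n = Module.finrank ℚ (kil (ann (C.On T)) n) := by
  have : {c | C.On T n c} = (kil (ann (C.On T)) n : Set (Matrix (Fin n → ι) (Fin n → ι) ℚ)) := by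
    ext c
    exact mem_kil_on C
  rw [CycleClasses.count, Set.finrank, this, Submodule.span_eq]

theorem ann_on_mono {T T' : Set B} (h : T ⊆ T') : ann (C.On T) ≤ ann (C.On T') :=
  fun x hx n c hc => hx n c (on_anti C h hc)

variable [Nonempty ι] [Nonempty B]

theorem hmul (T : Set B) : ∀ x ∈ ann (C.On T), ∃ μ : ℚ, xᵀ * V.Q + V.Q * x = μ • V.Q :=
  multipliers (b := Classical.arbitrary B) (on_form C T)

theorem ndS (T : Set B) (n : ℕ) : NdS (ann (C.On T)) n :=
  nd_of_pol (V.pol (Classical.arbitrary B)) (hmul C T)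
    (fun m c hc => ((on_iff C).2 hc).1.2 _) n

theorem traceNondeg_on (T : Set B) : TraceNondeg (ann (C.On T)) :=
  traceNondeg (semisimple_of_le (V.pol (Classical.arbitrary B))
    (fun x hx n c hc => hx n c (hc.1.2 _)) (hmul C T))

theorem count_pos (T : Set B) (n : ℕ) : 0 < C.count T n := by
  rw [count_eq]
  have h1 : (1 : Matrix (Fin n → ι) (Fin n → ι) ℚ) ∈ kil (ann (C.On T)) n := fun x _ => by
    unfold Kills; rw [mul_one, one_mul]
  have h2 : Nontrivial (kil (ann (C.On T)) n) :=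
    ⟨⟨⟨1, h1⟩, 0, fun h => one_ne_zero (congrArg Subtype.val h)⟩⟩
  exact Module.finrank_pos

theorem one_inequality (T T' : Set B) {K n q : ℕ} (hK : 1 ≤ K)
    (hn : place (Fintype.card ι) q K ≤ n) (h : C.count T n ≤ K * C.count (T ∪ T') n) :
    C.VHCOn T T' q := by
  intro c hc
  rw [count_eq, count_eq] at h
  have h1 := decide_sub (ann_on_mono C Set.subset_union_left) (ndS C (T ∪ T')) hn hK h
  rw [mem_kil_on, h1, ← mem_kil_on] at hc
  exact on_anti C Set.subset_union_right hc

theorem zero_one (T T' : Set B) : (∀ n, C.VHCOn T T' n) ∨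
    Tendsto (fun n => (C.count (T ∪ T') n : ℝ) / C.count T n) atTop (𝓝 0) := by
  by_cases h : ∀ n, C.VHCOn T T' n
  · exact Or.inl h
  right
  push Not at h
  obtain ⟨q, hq⟩ := h
  rw [Metric.tendsto_atTop]
  intro ε hε
  obtain ⟨K, hK⟩ := exists_nat_gt (1 / ε)
  have hK0 : (0 : ℝ) < K := lt_trans (by positivity) hK
  have hK1 : 1 ≤ K := by exact_mod_cast (by exact_mod_cast hK0 : 0 < K)
  refine ⟨place (Fintype.card ι) q K, fun n hn => ?_⟩
  have h1 : K * C.count (T ∪ T') n < C.count T n := by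
    by_contra h2
    exact hq (one_inequality C T T' hK1 hn (not_lt.1 h2))
  have h3 : (0 : ℝ) < C.count T n := by exact_mod_cast count_pos C T n
  have h4 : (K : ℝ) * C.count (T ∪ T') n < C.count T n := by exact_mod_cast h1
  rw [Real.dist_eq, sub_zero, abs_of_nonneg (by positivity), div_lt_iff₀ h3]
  have h5 : (1 : ℝ) < ε * K := by rwa [div_lt_iff₀ hε, mul_comm] at hK
  have h6 : (0 : ℝ) ≤ C.count (T ∪ T') n := by positivity
  nlinarith

/-- The decomposition of the larger algebra. -/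
theorem decompose_on (T T' : Set B) (h2 : C.VHCOn T T' 2) {x : Matrix ι ι ℚ}
    (hx : x ∈ ann (C.On (T ∪ T'))) :
    ∃ y ∈ ann (C.On T), ∃ z, SkewCentre (C.On T) V.Q z ∧ x = y + z := by
  have hnd := traceNondeg_on C T
  have hdet := HodgeStructure.det_ne_zero (V.pol (Classical.arbitrary B))
  obtain ⟨φ, hφ⟩ := exists_projector hnd
  have hle := ann_on_mono C (Set.subset_union_left (s := T) (t := T'))
  have h2' : ∀ c, C.On T 2 c → ∀ x ∈ ann (C.On (T ∪ T')), Kills x c := fun c hc x hx =>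
    hx 2 c ((on_union C).2 ⟨hc, h2 c hc⟩)
  have heq : ∀ x ∈ ann (C.On (T ∪ T')), ∀ y, φ (x * y - y * x) = x * φ y - φ y * x := fun x hx =>
    kills_tens.1 (h2' _ ((on_iff C).2 fun y hy => kills_tens.2 (projector_equivariant hnd hφ hy)) x hx)
  obtain ⟨hd, hc⟩ := core hle hnd hφ heq hx
  refine ⟨φ x, hφ.1 x, x - φ x, ⟨hc, fun y hy => ?_, ?_⟩, by rw [add_sub_cancel]⟩
  · exact (kills_mulLeft.1 (h2' _ ((on_iff C).2 fun t ht => kills_mulLeft.2 (hy t ht)) _ hd)).symm
  · set d := x - φ x with hdd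
    obtain ⟨μ, hμ⟩ := hmul C _ d hd
    have h0 : φ d = 0 := by
      rw [hdd, map_sub, hφ.apply_of_mem hnd (hφ.1 x), sub_self]
    have htr : d.trace = 0 := by
      have := hφ.2 d 1 (one_mem_ann _)
      rw [h0, zero_mul, trace_zero, mul_one] at this
      exact this.symm
    have hQu : IsUnit V.Q.det := isUnit_iff_ne_zero.2 hdet
    have h3 : V.Q⁻¹ * dᵀ * V.Q + d = μ • 1 := by
      have := congrArg (fun M => V.Q⁻¹ * M) hμ
      simp only [mul_add, mul_smul_comm, ← mul_assoc] at this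
      rw [Matrix.nonsing_inv_mul _ hQu, one_mul] at this
      exact this
    have h4 := congrArg Matrix.trace h3
    rw [trace_add, trace_mul_comm, ← mul_assoc, Matrix.mul_nonsing_inv _ hQu, one_mul,
      trace_transpose, htr, trace_smul, trace_one, smul_eq_mul, add_zero] at h4
    have h5 : μ = 0 := by
      rcases mul_eq_zero.1 h4.symm with h | h
      · exact h
      · exact absurd h (Nat.cast_ne_zero.2 Fintype.card_ne_zero)
    rw [h5, zero_smul] at hμ
    exact eq_neg_of_add_eq_zero_left hμ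

/-- The second tensor power decides. -/
theorem second_on (T T' : Set B) (h2 : C.VHCOn T T' 2) {n : ℕ}
    {c : Matrix (Fin n → ι) (Fin n → ι) ℚ} (hc : C.On T n c)
    (hz : ∀ z, SkewCentre (C.On T) V.Q z → Kills z c) : C.On T' n c := by
  refine on_anti C (Set.subset_union_right (s := T)) ((on_iff C).2 fun x hx => ?_)
  obtain ⟨y, hy, z, hz', rfl⟩ := decompose_on C T T' h2 hx
  exact Kills.add (hy n c hc) (hz z hz')

theorem skewCentre_eq_zero {P : Family ι ℚ} (hIV : NoTypeIV (ann P) V.Q) {z : Matrix ι ι ℚ}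
    (hz : SkewCentre P V.Q z) : z = 0 := by
  have hdet := HodgeStructure.det_ne_zero (V.pol (Classical.arbitrary B))
  have h1 := hIV z hz.1 hz.2.1
  rw [hz.2.2] at h1
  have h2 : (2 : ℚ) • (V.Q * z) = 0 := by
    rw [two_smul]
    nth_rw 1 [← h1]
    rw [neg_add_cancel]
  have h3 : V.Q * z = 0 := by
    rcases smul_eq_zero.1 h2 with h | h
    · norm_num at h
    · exact h
  have h4 := congrArg (fun M => V.Q⁻¹ * M) h3
  simp only [← mul_assoc, mul_zero] at h4
  rwa [Matrix.nonsing_inv_mul _ (isUnit_iff_ne_zero.2 hdet), one_mul] at h4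

theorem zero_main (T T' : Set B) :
    (∀ K n q : ℕ, 1 ≤ K → place (Fintype.card ι) q K ≤ n →
      C.count T n ≤ K * C.count (T ∪ T') n → C.VHCOn T T' q) ∧
    ((∀ n, C.VHCOn T T' n) ∨
      Tendsto (fun n => (C.count (T ∪ T') n : ℝ) / C.count T n) atTop (𝓝 0)) ∧
    (∀ K n : ℕ, 1 ≤ K → place (Fintype.card ι) 2 K ≤ n →
      (C.count T n ≤ K * C.count (T ∪ T') n → ∀ k c, C.On T k c →
        (∀ z, SkewCentre (C.On T) V.Q z → Kills z c) → C.On T' k c) ∧
      (NoTypeIV (ann (C.On T)) V.Q →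
        ((∀ k, C.VHCOn T T' k) ↔ C.count T n ≤ K * C.count (T ∪ T') n))) := by
  refine ⟨fun K n q hK hn h => one_inequality C T T' hK hn h, zero_one C T T', fun K n hK hn => ?_⟩
  have h1 : C.count T n ≤ K * C.count (T ∪ T') n → ∀ k c, C.On T k c →
        (∀ z, SkewCentre (C.On T) V.Q z → Kills z c) → C.On T' k c := fun h k c hc hz =>
    second_on C T T' (one_inequality C T T' hK hn h) hc hz
  refine ⟨h1, fun hIV => ⟨fun h => ?_, fun h k c hc => h1 h k c hc fun z hz => ?_⟩⟩
  · have h2 : {c | C.On T n c} = {c | C.On (T ∪ T') n c} := by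
      ext c
      exact ⟨fun hc => (on_union C).2 ⟨hc, h n c hc⟩, fun hc => ((on_union C).1 hc).1⟩
    have h3 : C.count T n = C.count (T ∪ T') n := by
      rw [CycleClasses.count, h2, CycleClasses.count]
    rw [h3]
    exact Nat.le_mul_of_pos_left _ hK
  · rw [skewCentre_eq_zero (V := V) hIV hz]
    exact Kills.zero c

end Pool.Agent.D0H93.VH
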